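import Pool.Agent.TH203.Uni.Non

set_option autoImplicit false

/-! Generic forms, and forms in four polynomials. -/

namespace Pool.Agent.TH203.Uni

open MvPolynomial

theorem eval_aeval' {ι κ : Type} (φ : κ → MvPolynomial ι ℂ) (x : ι → ℂ)
    (P : MvPolynomial κ ℂ) : eval x (aeval φ P) = eval (fun k => eval x (φ k)) P := by
  induction P using MvPolynomial.induction_on with
  | C a => simp
  | add f g hf hg => simp only [map_add, hf, hg]
  | mul_X f n hf => simp only [map_mul, aeval_X, eval_X, hf]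

/-- The binary form with given coefficients. -/
noncomputable def form {R : Type} [CommRing R] (n : ℕ) (c : Fin (n + 1) → R) : MvPolynomial ℕ R :=
  ∑ l : Fin (n + 1), C (c l) * (X 0 ^ (l : ℕ) * X 1 ^ (n - (l : ℕ)))

theorem map_form {R R' : Type} [CommRing R] [CommRing R'] (f : R →+* R') (n : ℕ)
    (c : Fin (n + 1) → R) : map f (form n c) = form n (fun l => f (c l)) := by
  simp [form]

theorem exists_form {n : ℕ} {x : MvPolynomial ℕ ℂ} (hx : x ∈ S n) :
    ∃ c : Fin (n + 1) → ℂ, x = form n c := by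
  obtain ⟨c, hc⟩ := (Submodule.mem_span_range_iff_exists_fun ℂ).1 hx
  refine ⟨c, ?_⟩
  rw [← hc, form]
  refine Finset.sum_congr rfl fun l _ => ?_
  rw [smul_eq_C_mul]

/-- Index set for the monomials of degree `n` in four variables. -/
abbrev T (n : ℕ) : Type :=
  {t : Fin (n + 1) × Fin (n + 1) × Fin (n + 1) // (t.1 : ℕ) + (t.2.1 : ℕ) + (t.2.2 : ℕ) ≤ n}

/-- Monomials in four elements. -/
def mono {R : Type} [CommRing R] (y : Fin 4 → R) (n : ℕ) (t : T n) : R :=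
  y 0 ^ (t.1.1 : ℕ) * y 1 ^ (t.1.2.1 : ℕ) * y 2 ^ (t.1.2.2 : ℕ) *
    y 3 ^ (n - (t.1.1 : ℕ) - (t.1.2.1 : ℕ) - (t.1.2.2 : ℕ))

/-- Forms of degree `n` in four polynomials. -/
noncomputable def V (y : Fin 4 → MvPolynomial ℕ ℂ) (n : ℕ) : Submodule ℂ (MvPolynomial ℕ ℂ) :=
  Submodule.span ℂ (Set.range (mono y n))

theorem mem_V (y : Fin 4 → MvPolynomial ℕ ℂ) {n a b c d : ℕ} (h : a + b + c + d = n) :
    y 0 ^ a * y 1 ^ b * y 2 ^ c * y 3 ^ d ∈ V y n := by
  refine Submodule.subset_span ⟨⟨(⟨a, by omega⟩, ⟨b, by omega⟩, ⟨c, by omega⟩), ?_⟩, ?_⟩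
  · simp only; omega
  · have : n - a - b - c = d := by omega
    simp only [mono, this]

theorem mul_mem_V (y : Fin 4 → MvPolynomial ℕ ℂ) {m n : ℕ} {x z : MvPolynomial ℕ ℂ}
    (hx : x ∈ V y m) (hz : z ∈ V y n) : x * z ∈ V y (m + n) := by
  have h : V y m * V y n ≤ V y (m + n) := by
    rw [V, V, Submodule.span_mul_span, Submodule.span_le]
    rintro _ ⟨_, ⟨⟨⟨a, b, c⟩, h⟩, rfl⟩, _, ⟨⟨⟨a', b', c'⟩, h'⟩, rfl⟩, rfl⟩
    simp only [SetLike.mem_coe, mono] at h h' ⊢
    have e : (y 0 ^ (a : ℕ) * y 1 ^ (b : ℕ) * y 2 ^ (c : ℕ) * y 3 ^ (m - (a : ℕ) - b - c) *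
        (y 0 ^ (a' : ℕ) * y 1 ^ (b' : ℕ) * y 2 ^ (c' : ℕ) * y 3 ^ (n - (a' : ℕ) - b' - c'))) =
        y 0 ^ ((a : ℕ) + a') * y 1 ^ ((b : ℕ) + b') * y 2 ^ ((c : ℕ) + c') *
          y 3 ^ ((m - (a : ℕ) - b - c) + (n - (a' : ℕ) - b' - c')) := by
      rw [pow_add, pow_add, pow_add, pow_add]; ring
    rw [e]
    apply mem_V
    omega
  exact h (Submodule.mul_mem_mul hx hz)

theorem sq_mem_V (y : Fin 4 → MvPolynomial ℕ ℂ) {n : ℕ} {x : MvPolynomial ℕ ℂ}
    (hx : x ∈ V y n) : x ^ 2 ∈ V y (n + n) := by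
  rw [sq]; exact mul_mem_V y hx hx

theorem self_mem_V (y : Fin 4 → MvPolynomial ℕ ℂ) (i : Fin 4) : y i ∈ V y 1 := by
  fin_cases i
  · simpa using mem_V y (n := 1) (a := 1) (b := 0) (c := 0) (d := 0) rfl
  · simpa using mem_V y (n := 1) (a := 0) (b := 1) (c := 0) (d := 0) rfl
  · simpa using mem_V y (n := 1) (a := 0) (b := 0) (c := 1) (d := 0) rfl
  · simpa using mem_V y (n := 1) (a := 0) (b := 0) (c := 0) (d := 1) rfl

/-- The form of degree `n` in four elements with given coefficients. -/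
noncomputable def comb {R : Type} [CommRing R] (n : ℕ) (F : T n → R)
    (y : Fin 4 → MvPolynomial ℕ R) : MvPolynomial ℕ R :=
  ∑ t : T n, C (F t) * mono y n t

theorem map_comb {R R' : Type} [CommRing R] [CommRing R'] (f : R →+* R') (n : ℕ)
    (F : T n → R) (y : Fin 4 → MvPolynomial ℕ R) :
    map f (comb n F y) = comb n (fun t => f (F t)) (fun i => map f (y i)) := by
  simp [comb, mono]

theorem exists_comb (y : Fin 4 → MvPolynomial ℕ ℂ) {n : ℕ} {x : MvPolynomial ℕ ℂ}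
    (hx : x ∈ V y n) : ∃ F : T n → ℂ, x = comb n F y := by
  obtain ⟨c, hc⟩ := (Submodule.mem_span_range_iff_exists_fun ℂ).1 hx
  refine ⟨c, ?_⟩
  rw [← hc, comb]
  refine Finset.sum_congr rfl fun l _ => ?_
  rw [smul_eq_C_mul]

theorem card_T2 : Fintype.card (T 2) = 10 := by decide +kernel

theorem card_T4 : Fintype.card (T 4) = 35 := by decide +kernel

/-- A layer with at most four inputs as a sum over four indices. -/
theorem step_four {n : ℕ} (hn : n ≤ 4) (A : ℕ → ℕ → ℂ) (h : ℕ → MvPolynomial ℕ ℂ) (a : ℕ) :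
    step 2 n A h a = ∑ i : Fin 4, C (if (i : ℕ) < n then A a i else 0) * h i ^ 2 := by
  rw [step, Fin.sum_univ_eq_sum_range (fun i => C (if i < n then A a i else 0) * h i ^ 2) 4]
  have hsub : Finset.range n ⊆ Finset.range 4 := Finset.range_mono hn
  rw [← Finset.sum_subset hsub]
  · refine Finset.sum_congr rfl fun i hi => ?_
    rw [if_pos (Finset.mem_range.1 hi)]
  · intro i _ hi
    rw [if_neg (by simpa using hi)]
    simp

end Pool.Agent.TH203.Uni
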