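import Pool.Agent.TH203.Uni.Lin
import Pool.Agent.TH203.Uni.Gen
import Pool.Agent.H124R3.Jac

set_option autoImplicit false

/-! The 65 coefficients of the generic output are algebraically independent. -/

namespace Pool.Agent.TH203.Uni

open Polynomial

/-- Parameters. -/
abbrev IJ (κ : Type) : Type := κ ⊕ (Fin 4 × Fin 9)

/-- Generic polynomial of degree 8. -/
noncomputable def qg {κ R : Type} [CommRing R] (x : IJ κ → R) (j : Fin 4) : R[X] :=
  ∑ l : Fin 9, C (x (Sum.inr (j, l))) * X ^ (l : ℕ)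

/-- Product of four squares. -/
def sq4 {R : Type} [CommRing R] (q : Fin 4 → R) (t : Fin 4 × Fin 4 × Fin 4 × Fin 4) : R :=
  q t.1 ^ 2 * q t.2.1 ^ 2 * (q t.2.2.1 ^ 2 * q t.2.2.2 ^ 2)

variable {κ : Type} [Fintype κ] [DecidableEq κ] (m : κ → Fin 4 × Fin 4 × Fin 4 × Fin 4)

/-- Generic output. -/
noncomputable def GG {R : Type} [CommRing R] (x : IJ κ → R) : R[X] :=
  (∑ j : Fin 4, qg x j ^ 8) + ∑ t : κ, C (x (Sum.inl t)) * sq4 (qg x) (m t)

omit [Fintype κ] [DecidableEq κ] in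
theorem map_qg {R R' : Type} [CommRing R] [CommRing R'] (f : R →+* R') (x : IJ κ → R)
    (j : Fin 4) : (qg x j).map f = qg (fun i => f (x i)) j := by
  simp [qg, Polynomial.map_sum]

omit [DecidableEq κ] in
theorem map_GG {R R' : Type} [CommRing R] [CommRing R'] (f : R →+* R') (x : IJ κ → R) :
    (GG m x).map f = GG m (fun i => f (x i)) := by
  simp [GG, map_qg, sq4, Polynomial.map_sum]

/-- The coefficients of the generic output. -/
noncomputable def phi (k : Fin 65) : MvPolynomial (IJ κ) ℂ :=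
  (GG m (fun i => (MvPolynomial.X i : MvPolynomial (IJ κ) ℂ))).coeff k

omit [DecidableEq κ] in
theorem eval_phi (x : IJ κ → ℂ) (k : Fin 65) :
    MvPolynomial.eval x (phi m k) = (GG m x).coeff k := by
  rw [phi, ← coeff_map, map_GG]
  simp

/-- The base point. -/
noncomputable def u0 : IJ κ → ℂ :=
  Sum.elim (fun _ => 0) (fun i => ((bas i.1).getD i.2 0 : ℕ))

omit [Fintype κ] [DecidableEq κ] in
theorem qg_u0 (j : Fin 4) : qg (u0 : IJ κ → ℂ) j = toP (bas j) := by
  ext n
  rw [coeff_toP, qg, finsetSum_coeff]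
  simp only [coeff_C_mul, coeff_X_pow, mul_ite, mul_one, mul_zero]
  by_cases hn : n < 9
  · rw [Finset.sum_eq_single (⟨n, hn⟩ : Fin 9)]
    · simp [u0]
    · intro b _ hb
      rw [if_neg]
      intro h
      exact hb (Fin.ext h.symm)
    · intro h
      exact absurd (Finset.mem_univ _) h
  · rw [Finset.sum_eq_zero]
    · have : (bas j).length ≤ 9 := by
        fin_cases j <;> simp [bas]
      rw [List.getD_eq_default _ _ (by omega)]
      simp
    · intro b _
      rw [if_neg]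
      have := b.2
      omega

/-- Differentiation of the coefficients at the base point. -/
noncomputable def L (p : IJ κ) (G : (MvPolynomial (IJ κ) ℂ)[X]) : ℂ[X] :=
  G.sum fun m a => monomial m (MvPolynomial.eval u0 (MvPolynomial.pderiv p a))

omit [Fintype κ] [DecidableEq κ] in
theorem coeff_L (p : IJ κ) (G : (MvPolynomial (IJ κ) ℂ)[X]) (n : ℕ) :
    (L p G).coeff n = MvPolynomial.eval u0 (MvPolynomial.pderiv p (G.coeff n)) := by
  rw [L, Polynomial.sum, finsetSum_coeff]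
  simp only [coeff_monomial]
  rw [Finset.sum_ite_eq']
  split_ifs with h
  · rfl
  · rw [notMem_support_iff.1 h]
    simp

omit [Fintype κ] [DecidableEq κ] in
theorem L_add (p : IJ κ) (G H : (MvPolynomial (IJ κ) ℂ)[X]) : L p (G + H) = L p G + L p H := by
  ext n
  simp [coeff_L]

omit [Fintype κ] [DecidableEq κ] in
theorem L_sum {σ : Type} (p : IJ κ) (s : Finset σ) (G : σ → (MvPolynomial (IJ κ) ℂ)[X]) :
    L p (∑ i ∈ s, G i) = ∑ i ∈ s, L p (G i) := by
  ext n
  simp [coeff_L]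

/-- Evaluation at the base point. -/
noncomputable def E (G : (MvPolynomial (IJ κ) ℂ)[X]) : ℂ[X] := G.map (MvPolynomial.eval u0)

omit [Fintype κ] [DecidableEq κ] in
theorem L_mul (p : IJ κ) (G H : (MvPolynomial (IJ κ) ℂ)[X]) :
    L p (G * H) = L p G * E H + E G * L p H := by
  ext n
  rw [coeff_L, coeff_mul, coeff_add, coeff_mul, coeff_mul, map_sum, map_sum,
    ← Finset.sum_add_distrib]
  refine Finset.sum_congr rfl fun ab _ => ?_
  rw [coeff_L, coeff_L, E, E, coeff_map, coeff_map, Derivation.leibniz]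
  simp only [smul_eq_mul, map_add, map_mul]
  ring

omit [Fintype κ] [DecidableEq κ] in
theorem E_pow (G : (MvPolynomial (IJ κ) ℂ)[X]) (n : ℕ) : E (G ^ n) = E G ^ n := by
  simp [E]

omit [Fintype κ] [DecidableEq κ] in
theorem L_C (p : IJ κ) (a : MvPolynomial (IJ κ) ℂ) :
    L p (C a) = C (MvPolynomial.eval u0 (MvPolynomial.pderiv p a)) := by
  ext n
  rw [coeff_L, coeff_C, coeff_C]
  split_ifs <;> simp

omit [Fintype κ] [DecidableEq κ] in
theorem L_X_pow (p : IJ κ) (n : ℕ) : L p (X ^ n) = 0 := by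
  ext m
  rw [coeff_L, coeff_X_pow]
  split_ifs <;> simp

omit [Fintype κ] [DecidableEq κ] in
theorem L_pow (p : IJ κ) (G : (MvPolynomial (IJ κ) ℂ)[X]) (n : ℕ) :
    L p (G ^ (n + 1)) = C ((n : ℂ) + 1) * (E G ^ n * L p G) := by
  induction n with
  | zero => simp
  | succ n ih =>
    rw [pow_succ, L_mul, ih, E_pow]
    push_cast
    simp only [C_add, C_1]
    ring

omit [Fintype κ] [DecidableEq κ] in
theorem L_pow8 (p : IJ κ) (G : (MvPolynomial (IJ κ) ℂ)[X]) :
    L p (G ^ 8) = C 8 * (E G ^ 7 * L p G) := by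
  have h := L_pow p G 7
  have h8 : ((7 : ℕ) : ℂ) + 1 = 8 := by norm_num
  rw [h8] at h
  exact h

omit [Fintype κ] in
theorem L_qg (p : IJ κ) (j : Fin 4) :
    L p (qg (fun i => (MvPolynomial.X i : MvPolynomial (IJ κ) ℂ)) j) =
    ∑ l : Fin 9, (if p = Sum.inr (j, l) then X ^ (l : ℕ) else 0) := by
  rw [qg, L_sum]
  refine Finset.sum_congr rfl fun l _ => ?_
  rw [L_mul, L_X_pow, mul_zero, add_zero, L_C, MvPolynomial.pderiv_X, E]
  by_cases h : p = Sum.inr (j, l)
  · subst h
    simp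
  · rw [if_neg h, Pi.single_eq_of_ne (Ne.symm h)]
    simp

omit [Fintype κ] [DecidableEq κ] in
theorem E_qg (j : Fin 4) :
    E (qg (fun i => (MvPolynomial.X i : MvPolynomial (IJ κ) ℂ)) j) = toP (bas j) := by
  rw [← qg_u0 (κ := κ), E, qg, qg, Polynomial.map_sum]
  simp

omit [Fintype κ] [DecidableEq κ] in
theorem E_sq4 (t : Fin 4 × Fin 4 × Fin 4 × Fin 4) :
    E (sq4 (qg (fun i => (MvPolynomial.X i : MvPolynomial (IJ κ) ℂ))) t) =
      sq4 (fun j : Fin 4 => toP (bas j)) t := by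
  have h := E_qg (κ := κ)
  unfold E at h ⊢
  simp only [sq4, Polynomial.map_mul, Polynomial.map_pow, h]

theorem L_GG (p : IJ κ) : L p (GG m (fun i => (MvPolynomial.X i : MvPolynomial (IJ κ) ℂ))) =
    (∑ j : Fin 4, C 8 * (toP (bas j) ^ 7 *
      ∑ l : Fin 9, (if p = Sum.inr (j, l) then X ^ (l : ℕ) else 0))) +
    ∑ t, (if p = Sum.inl t then sq4 (fun j : Fin 4 => toP (bas j)) (m t) else 0) := by
  have h1 : ∀ j : Fin 4, L p (qg (fun i => (MvPolynomial.X i : MvPolynomial (IJ κ) ℂ)) j ^ 8) =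
      C 8 * (toP (bas j) ^ 7 *
      ∑ l : Fin 9, (if p = Sum.inr (j, l) then X ^ (l : ℕ) else 0)) := by
    intro j
    rw [L_pow8, E_qg, L_qg]
  have h2 : ∀ t : κ, L p (C (MvPolynomial.X (Sum.inl t) : MvPolynomial (IJ κ) ℂ) *
      sq4 (qg (fun i => (MvPolynomial.X i : MvPolynomial (IJ κ) ℂ))) (m t)) =
      (if p = Sum.inl t then sq4 (fun j : Fin 4 => toP (bas j)) (m t) else 0) := by
    intro t
    rw [L_mul, L_C, E_sq4, MvPolynomial.pderiv_X]
    have h0 : E (C (MvPolynomial.X (Sum.inl t) : MvPolynomial (IJ κ) ℂ)) = 0 := by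
      simp [E, u0]
    rw [h0, zero_mul, add_zero]
    by_cases h : p = Sum.inl t
    · subst h
      simp
    · rw [if_neg h, Pi.single_eq_of_ne (Ne.symm h)]
      simp
  rw [GG, L_add, L_sum, L_sum]
  simp only [h1, h2]

theorem L_GG_inl (t : κ) :
    L (Sum.inl t) (GG m (fun i => (MvPolynomial.X i : MvPolynomial (IJ κ) ℂ))) =
      sq4 (fun j : Fin 4 => toP (bas j)) (m t) := by
  rw [L_GG, Finset.sum_eq_zero, zero_add, Finset.sum_eq_single t, if_pos rfl]
  · intro b _ hb
    rw [if_neg]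
    intro h
    exact hb (Sum.inl.inj h).symm
  · intro h
    exact absurd (Finset.mem_univ _) h
  · intro j _
    rw [Finset.sum_eq_zero, mul_zero, mul_zero]
    intro l _
    rw [if_neg]
    intro h
    cases h

theorem L_GG_inr (j : Fin 4) (l : Fin 9) :
    L (Sum.inr (j, l)) (GG m (fun i => (MvPolynomial.X i : MvPolynomial (IJ κ) ℂ))) =
      C 8 * (toP (bas j) ^ 7 * X ^ (l : ℕ)) := by
  have h2 : ∑ t : κ, (if (Sum.inr (j, l) : IJ κ) = Sum.inl t then
      sq4 (fun j : Fin 4 => toP (bas j)) (m t) else 0) = 0 := by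
    refine Finset.sum_eq_zero fun t _ => ?_
    rw [if_neg]
    intro h
    cases h
  rw [L_GG, h2, add_zero, Finset.sum_eq_single j, Finset.sum_eq_single l, if_pos rfl]
  · intro b _ hb
    rw [if_neg]
    intro h
    apply hb
    have := Sum.inr.inj h
    exact (Prod.ext_iff.1 this).2.symm
  · intro h
    exact absurd (Finset.mem_univ _) h
  · intro b _ hb
    rw [Finset.sum_eq_zero, mul_zero, mul_zero]
    intro l' _
    rw [if_neg]
    intro h
    apply hb
    have := Sum.inr.inj h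
    exact (Prod.ext_iff.1 this).1.symm
  · intro h
    exact absurd (Finset.mem_univ _) h

theorem dom (hm : Function.Surjective m) (P : MvPolynomial (Fin 65) ℂ)
    (hP : MvPolynomial.aeval (phi m) P = 0) : P = 0 := by
  refine Pool.Agent.H124R3.jacobian_dominant_at (phi m) u0 ?_ P hP
  intro v hv
  have hv' : ∀ p, lam v (L p (GG m (fun i => (MvPolynomial.X i : MvPolynomial (IJ κ) ℂ)))) = 0 := by
    intro p
    rw [← hv p, lam]
    refine Finset.sum_congr rfl fun k _ => ?_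
    rw [coeff_L, phi]
  apply lin v
  · rintro ⟨a, b, c, d⟩ ha hb hc hd
    obtain ⟨t, ht⟩ := hm (⟨a, ha⟩, ⟨b, hb⟩, ⟨c, hc⟩, ⟨d, hd⟩)
    have h1 := hv' (Sum.inl t)
    rw [L_GG_inl, ht] at h1
    exact h1
  · intro j hj l hl
    have h1 := hv' (Sum.inr (⟨j, hj⟩, ⟨l, hl⟩))
    rw [L_GG_inr] at h1
    have h3 : lam v (C 8 * (toP (bas j) ^ 7 * X ^ l)) = 8 * lam v (toP (bas j) ^ 7 * X ^ l) := by
      simp only [lam, coeff_C_mul, Finset.mul_sum]
      refine Finset.sum_congr rfl fun m _ => ?_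
      ring
    have h4 : 8 * lam v (toP (bas j) ^ 7 * X ^ l) = 0 := by rw [← h3]; exact h1
    exact (mul_eq_zero.1 h4).resolve_left (by norm_num)

end Pool.Agent.TH203.Uni
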