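import Pool.Agent.TH203.Uni.Reach
import Pool.Agent.TH203.Uni.Dom

set_option autoImplicit false

/-! The wide network fills its ambient space. -/

namespace Pool.Agent.TH203.Uni

open MvPolynomial

/-- Dehomogenisation. -/
noncomputable def th : MvPolynomial ℕ ℂ →ₐ[ℂ] Polynomial ℂ :=
  aeval (fun i => if i = 0 then Polynomial.X else 1)

theorem coeff_th {n : ℕ} {x : MvPolynomial ℕ ℂ} (hx : x ∈ S n) (k : ℕ) :
    coeff (Finsupp.single 0 k + Finsupp.single 1 (n - k)) x = (th x).coeff k := by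
  have key : S n ≤ LinearMap.ker ((MvPolynomial.lcoeff ℂ
      (Finsupp.single 0 k + Finsupp.single 1 (n - k))) -
      (Polynomial.lcoeff ℂ k) ∘ₗ th.toLinearMap) := by
    rw [S, Submodule.span_le]
    rintro _ ⟨l, rfl⟩
    simp only [SetLike.mem_coe, LinearMap.mem_ker, LinearMap.sub_apply, LinearMap.comp_apply,
      MvPolynomial.lcoeff_apply, Polynomial.lcoeff_apply, AlgHom.toLinearMap_apply]
    have h1 : (X 0 ^ (l : ℕ) * X 1 ^ (n - (l : ℕ)) : MvPolynomial ℕ ℂ) =
        monomial (Finsupp.single 0 (l : ℕ) + Finsupp.single 1 (n - (l : ℕ))) 1 := by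
      rw [X_pow_eq_monomial, X_pow_eq_monomial, monomial_mul, one_mul]
    have h2 : th (X 0 ^ (l : ℕ) * X 1 ^ (n - (l : ℕ))) = Polynomial.X ^ (l : ℕ) := by
      simp [th]
    rw [h2, h1, coeff_monomial, Polynomial.coeff_X_pow]
    have hl := l.2
    by_cases h : k = (l : ℕ)
    · rw [h]; simp
    · rw [if_neg, if_neg h, sub_zero]
      intro h'
      apply h
      have := congrArg (fun f : ℕ →₀ ℕ => f 0) h'
      simpa using this.symm
  have := key hx
  simp only [LinearMap.mem_ker, LinearMap.sub_apply, LinearMap.comp_apply,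
      MvPolynomial.lcoeff_apply, Polynomial.lcoeff_apply, AlgHom.toLinearMap_apply] at this
  exact sub_eq_zero.1 this

theorem supp_S {n : ℕ} {x : MvPolynomial ℕ ℂ} (hx : x ∈ S n) (s : ℕ →₀ ℕ) (hs : coeff s x ≠ 0) :
    ∃ k ≤ n, s = Finsupp.single 0 k + Finsupp.single 1 (n - k) := by
  by_contra hcon
  push Not at hcon
  apply hs
  have key : S n ≤ LinearMap.ker (MvPolynomial.lcoeff ℂ s) := by
    rw [S, Submodule.span_le]
    rintro _ ⟨l, rfl⟩
    simp only [SetLike.mem_coe, LinearMap.mem_ker, MvPolynomial.lcoeff_apply]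
    have h1 : (X 0 ^ (l : ℕ) * X 1 ^ (n - (l : ℕ)) : MvPolynomial ℕ ℂ) =
        monomial (Finsupp.single 0 (l : ℕ) + Finsupp.single 1 (n - (l : ℕ))) 1 := by
      rw [X_pow_eq_monomial, X_pow_eq_monomial, monomial_mul, one_mul]
    rw [h1, coeff_monomial, if_neg]
    intro h
    have hl := l.2
    exact hcon l (by omega) h.symm
  exact key hx

/-- Restriction of a polynomial to the coordinates of the ambient space. -/
noncomputable def res (P : MvPolynomial (ℕ × (ℕ →₀ ℕ)) ℂ) : MvPolynomial (Fin 65) ℂ :=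
  aeval (fun p => ∑ k : Fin 65, if p = (0, mon k) then X k else 0) P

theorem eval_res (P : MvPolynomial (ℕ × (ℕ →₀ ℕ)) ℂ) (c : ℕ × (ℕ →₀ ℕ) → ℂ)
    (hc : ∀ p, c p ≠ 0 → ∃ k, p = (0, mon k)) :
    eval (fun k => c (0, mon k)) (res P) = eval c P := by
  rw [res, eval_aeval']
  congr 2
  funext p
  rw [map_sum]
  by_cases h : ∃ k, p = (0, mon k)
  · obtain ⟨k, rfl⟩ := h
    rw [Finset.sum_eq_single k]
    · simp
    · intro b _ hb
      rw [if_neg, map_zero]
      intro h
      apply hb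
      exact (mon_injective (Prod.ext_iff.1 h).2).symm
    · intro h
      exact absurd (Finset.mem_univ _) h
  · have h0 : c p = 0 := by
      by_contra h1
      exact h (hc p h1)
    rw [h0, Finset.sum_eq_zero]
    intro k _
    rw [if_neg, map_zero]
    intro h1
    exact h ⟨k, h1⟩

/-- The octics. -/
noncomputable def QQ {κ : Type} (x : IJ κ → ℂ) (j : Fin 4) : MvPolynomial ℕ ℂ :=
  form 8 (fun l => x (Sum.inr (j, l)))

theorem QQ_mem {κ : Type} (x : IJ κ → ℂ) (j : Fin 4) : QQ x j ∈ S 8 := by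
  unfold QQ form
  refine Submodule.sum_mem _ fun l _ => ?_
  rw [← smul_eq_C_mul]
  refine Submodule.smul_mem _ _ (mem_S ?_)
  have := l.2
  omega

theorem th_QQ {κ : Type} (x : IJ κ → ℂ) (j : Fin 4) : th (QQ x j) = qg x j := by
  unfold QQ form qg
  rw [map_sum]
  refine Finset.sum_congr rfl fun l _ => ?_
  rw [map_mul, map_mul, map_pow, map_pow]
  simp [th, Polynomial.algebraMap_eq]

theorem mul_mem_S' {m n k : ℕ} (hk : m + n = k) {x y : MvPolynomial ℕ ℂ} (hx : x ∈ S m)
    (hy : y ∈ S n) : x * y ∈ S k := by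
  subst hk
  exact mul_mem_S hx hy

theorem sq4_mem {κ : Type} (x : IJ κ → ℂ) (t : Fin 4 × Fin 4 × Fin 4 × Fin 4) :
    sq4 (QQ x) t ∈ S 64 := by
  have h : ∀ j, QQ x j ^ 2 ∈ S 16 := by
    intro j
    rw [sq]
    exact mul_mem_S' (by norm_num) (QQ_mem x j) (QQ_mem x j)
  have h2 : ∀ i j, QQ x i ^ 2 * QQ x j ^ 2 ∈ S 32 := fun i j =>
    mul_mem_S' (by norm_num) (h i) (h j)
  exact mul_mem_S' (by norm_num) (h2 _ _) (h2 _ _)

section

variable {κ : Type} [Fintype κ] (m : κ → Fin 4 × Fin 4 × Fin 4 × Fin 4)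

/-- The output. -/
noncomputable def HH (x : IJ κ → ℂ) : MvPolynomial ℕ ℂ :=
  (∑ j : Fin 4, sq4 (QQ x) (j, j, j, j)) + ∑ t : κ, C (x (Sum.inl t)) * sq4 (QQ x) (m t)

theorem HH_mem (x : IJ κ → ℂ) : HH m x ∈ S 64 := by
  refine Submodule.add_mem _ (Submodule.sum_mem _ fun j _ => sq4_mem x _)
    (Submodule.sum_mem _ fun t _ => ?_)
  rw [← smul_eq_C_mul]
  exact Submodule.smul_mem _ _ (sq4_mem x _)

theorem th_HH (x : IJ κ → ℂ) : th (HH m x) = GG m x := by
  have h : ∀ t, th (sq4 (QQ x) t) = sq4 (qg x) t := by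
    intro t
    simp only [sq4, map_mul, map_pow, th_QQ]
  unfold HH GG
  rw [map_add, map_sum, map_sum]
  congr 1
  · refine Finset.sum_congr rfl fun j _ => ?_
    rw [h, sq4]
    ring
  · refine Finset.sum_congr rfl fun t _ => ?_
    rw [map_mul, h]
    simp [th, Polynomial.algebraMap_eq]

theorem HH_span (x : IJ κ → ℂ) :
    HH m x ∈ Submodule.span ℂ (Set.range fun t : Fin 4 × Fin 4 × Fin 4 × Fin 4 =>
      QQ x t.1 ^ 2 * QQ x t.2.1 ^ 2 * (QQ x t.2.2.1 ^ 2 * QQ x t.2.2.2 ^ 2)) := by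
  refine Submodule.add_mem _ (Submodule.sum_mem _ fun j _ => ?_)
    (Submodule.sum_mem _ fun t _ => ?_)
  · exact Submodule.subset_span ⟨(j, j, j, j), rfl⟩
  · rw [← smul_eq_C_mul]
    exact Submodule.smul_mem _ _ (Submodule.subset_span ⟨m t, rfl⟩)

theorem fills_aux [DecidableEq κ] (hm : Function.Surjective m) : Fills dstar := by
  intro P hP c hc
  have hres : res P = 0 := by
    apply dom m hm
    apply MvPolynomial.funext
    intro x
    rw [eval_aeval', map_zero]
    obtain ⟨W, hW⟩ := reach (QQ x) (QQ_mem x) (HH m x) (HH_span m x)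
    have h1 := hP W
    rw [← eval_res] at h1
    · rw [← h1]
      congr 2
      funext k
      rw [eval_phi, hW, if_pos rfl, ← th_HH, mon, coeff_th (HH_mem m x) k]
    · rintro ⟨a, s⟩ hp
      simp only [hW] at hp
      by_cases ha : a = 0
      · rw [if_pos ha] at hp
        obtain ⟨k, hk, hs⟩ := supp_S (HH_mem m x) s hp
        refine ⟨⟨k, by omega⟩, ?_⟩
        rw [ha, hs]
        rfl
      · rw [if_neg ha, coeff_zero] at hp
        exact absurd rfl hp
  rw [← eval_res P c, hres, map_zero]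
  rintro ⟨a, s⟩ hp
  obtain ⟨h1, h2, h3⟩ := hc _ hp
  have ha : a = 0 := by
    have : a < 1 := h1
    omega
  have h3' : ∀ b ∈ s.support, b < 2 := h3
  have h2' : ∑ b ∈ s.support, s b = 64 := by
    rw [h2]; norm_num
  have hs : s.support ⊆ {0, 1} := by
    intro b hb
    have := h3' b hb
    simp only [Finset.mem_insert, Finset.mem_singleton]
    omega
  rw [Finset.sum_subset hs (by
    intro b _ hb
    simpa using hb), Finset.sum_pair (by norm_num)] at h2'
  refine ⟨⟨s 0, by omega⟩, ?_⟩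
  rw [ha]
  congr 1
  ext b
  simp only [mon, Finsupp.add_apply]
  by_cases h0 : b = 0
  · subst h0; simp
  · by_cases h1 : b = 1
    · subst h1
      simp
      omega
    · rw [Finsupp.single_eq_of_ne (by omega), Finsupp.single_eq_of_ne (by omega), add_zero]
      by_contra hne
      have := h3' b (Finsupp.mem_support_iff.2 hne)
      omega

end

theorem fills_dstar : Fills dstar :=
  fills_aux (κ := Fin 4 × Fin 4 × Fin 4 × Fin 4) id Function.surjective_id

end Pool.Agent.TH203.Uni
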