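import Pool.Agent.TH203.Uni.Gen

set_option autoImplicit false

/-! Networks with `d_4 ≤ 4` and `d_5 ≤ 4` do not fill. -/

namespace Pool.Agent.TH203.Uni

open MvPolynomial

/-- The parameters. -/
abbrev IA : Type := T 2 ⊕ (Fin 4 × Fin 4) ⊕ (Fin 4 × Fin 9)

theorem card_IA : Fintype.card IA < 65 := by
  simp only [Fintype.card_sum, Fintype.card_prod, Fintype.card_fin, card_T2]
  norm_num

/-- The general output. -/
noncomputable def GA {R : Type} [CommRing R] (x : IA → R) : MvPolynomial ℕ R :=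
  comb 2 (fun t => x (Sum.inl t)) (fun c =>
    (∑ i : Fin 4, C (x (Sum.inr (Sum.inl (c, i)))) *
      (form 8 (fun l => x (Sum.inr (Sum.inr (i, l))))) ^ 2) ^ 2)

theorem map_GA {R R' : Type} [CommRing R] [CommRing R'] (f : R →+* R') (x : IA → R) :
    map f (GA x) = GA (fun i => f (x i)) := by
  simp [GA, map_comb, map_form]

theorem nonfillA (e : Fin (7 + 1) → ℕ) (he0 : e 0 = 2) (he7 : e 7 = 1) (he4 : e 4 ≤ 4)
    (he5 : e 5 ≤ 4) : ¬ Fills e := by
  obtain ⟨P, hP0, hP⟩ := exists_rel card_IA (fun k => coeff (mon k) (GA (fun i => X i)))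
  refine not_fills e he0 he7 P hP0 ?_
  intro W
  have key : ∃ x : IA → ℂ, net e W 0 = GA x := by
    rw [net_eq]
    have h1 := layer1 he0 (W 0)
    have h2 := layer_S (n := e 1) (W 1) _ h1
    have h3 := layer_S (n := e 2) (W 2) _ h2
    have h4 := layer_S (n := e 3) (W 3) _ h3
    generalize step 2 (e 3) (W 3) (step 2 (e 2) (W 2) (step 2 (e 1) (W 1)
      (step 1 (e 0) (W 0) (fun b => X b)))) = g4 at h4
    choose q hq using fun b => exists_form (h4 b)
    set g5 := step 2 (e 4) (W 4) g4 with hg5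
    let y : Fin 4 → MvPolynomial ℕ ℂ := fun c => (g5 c) ^ 2
    have h6 : ∀ a, step 2 (e 5) (W 5) g5 a ∈ V y 1 := by
      intro a
      refine step_mem _ (fun b hb => ?_) a
      exact self_mem_V y ⟨b, by omega⟩
    have h7 : step 2 (e 6) (W 6) (step 2 (e 5) (W 5) g5) 0 ∈ V y 2 :=
      step_mem _ (fun b _ => sq_mem_V y (h6 b)) 0
    obtain ⟨F, hF⟩ := exists_comb y h7
    refine ⟨Sum.elim F (Sum.elim (fun ci => if (ci.2 : ℕ) < e 4 then W 4 ci.1 ci.2 else 0)
      (fun il => q il.1 il.2)), ?_⟩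
    refine hF.trans (congrArg (comb 2 F) (funext fun c => ?_))
    refine congrArg (fun z => z ^ 2) ?_
    rw [hg5, step_four he4]
    refine Finset.sum_congr rfl fun i _ => ?_
    rw [hq i]
    rfl
  obtain ⟨x, hx⟩ := key
  have h1 : ∀ k, coeff (mon k) (net e W 0) =
      eval x (coeff (mon k) (GA (fun i => (X i : MvPolynomial IA ℂ)))) := by
    intro k
    rw [hx, ← coeff_map, map_GA]
    simp
  simp only [h1]
  rw [← eval_aeval', hP, map_zero]

end Pool.Agent.TH203.Uni
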