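import Pool.Agent.TH203.Uni.Gen

set_option autoImplicit false

/-! Networks with `d_3 ≤ 4` and `d_4 ≤ 4` do not fill. -/

namespace Pool.Agent.TH203.Uni

open MvPolynomial

/-- The parameters. -/
abbrev IB : Type := T 4 ⊕ (Fin 4 × Fin 4) ⊕ (Fin 4 × Fin 5)

/-- The parameters after normalisation. -/
abbrev IS : Type := T 4 ⊕ (Fin 4 × Fin 3) ⊕ (Fin 4 × Fin 4)

theorem card_IS : Fintype.card IS < 65 := by
  simp only [Fintype.card_sum, Fintype.card_prod, Fintype.card_fin, card_T4]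
  norm_num

/-- The middle outputs. -/
noncomputable def QB {R : Type} [CommRing R] (a : Fin 4 × Fin 4 → R) (s : Fin 4 × Fin 5 → R)
    (e : Fin 4) : MvPolynomial ℕ R :=
  ∑ k : Fin 4, C (a (e, k)) * (form 4 (fun l => s (k, l))) ^ 2

/-- The general output. -/
noncomputable def GB {R : Type} [CommRing R] (x : IB → R) : MvPolynomial ℕ R :=
  comb 4 (fun t => x (Sum.inl t)) (fun e =>
    (QB (fun i => x (Sum.inr (Sum.inl i))) (fun i => x (Sum.inr (Sum.inr i))) e) ^ 2)

theorem map_QB {R R' : Type} [CommRing R] [CommRing R'] (f : R →+* R') (a : Fin 4 × Fin 4 → R)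
    (s : Fin 4 × Fin 5 → R) (e : Fin 4) :
    map f (QB a s e) = QB (fun i => f (a i)) (fun i => f (s i)) e := by
  simp [QB, map_form]

theorem map_GB {R R' : Type} [CommRing R] [CommRing R'] (f : R →+* R') (x : IB → R) :
    map f (GB x) = GB (fun i => f (x i)) := by
  simp [GB, map_comb, map_QB]

/-- The slice. -/
def slA {R : Type} [CommRing R] (x : IS → R) (i : Fin 4 × Fin 4) : R :=
  Fin.cases 1 (fun k' => x (Sum.inr (Sum.inl (i.1, k')))) i.2

/-- The slice. -/
def slS {R : Type} [CommRing R] (x : IS → R) (i : Fin 4 × Fin 5) : R :=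
  Fin.cases 1 (fun k' => x (Sum.inr (Sum.inr (i.1, k')))) i.2

/-- The slice. -/
def sl {R : Type} [CommRing R] (x : IS → R) : IB → R :=
  Sum.elim (fun t => x (Sum.inl t)) (Sum.elim (slA x) (slS x))

theorem map_sl {R R' : Type} [CommRing R] [CommRing R'] (f : R →+* R') (x : IS → R) (i : IB) :
    f (sl x i) = sl (fun j => f (x j)) i := by
  rcases i with t | ⟨e, k⟩ | ⟨k, l⟩
  · rfl
  · simp only [sl, Sum.elim_inr, Sum.elim_inl, slA]
    refine Fin.cases ?_ (fun k' => ?_) k
    · simp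
    · simp
  · simp only [sl, Sum.elim_inr, slS]
    refine Fin.cases ?_ (fun k' => ?_) l
    · simp
    · simp

theorem form_smul (n : ℕ) (μ : ℂ) (c : Fin (n + 1) → ℂ) :
    form n (fun l => μ * c l) = C μ * form n c := by
  simp only [form, C_mul, Finset.mul_sum]
  refine Finset.sum_congr rfl fun l _ => ?_
  ring

theorem mono_smul (n : ℕ) (μ : Fin 4 → ℂ) (y : Fin 4 → MvPolynomial ℕ ℂ) (t : T n) :
    mono (fun i => C (μ i) * y i) n t = C (mono μ n t) * mono y n t := by
  simp only [mono, mul_pow, C_mul, C_pow]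
  ring

theorem slice_eq (x : IB → ℂ) (ha : ∀ e : Fin 4, x (Sum.inr (Sum.inl (e, 0))) ≠ 0)
    (hs : ∀ k : Fin 4, x (Sum.inr (Sum.inr (k, 0))) ≠ 0) :
    ∃ x' : IS → ℂ, GB x = GB (sl x') := by
  set a : Fin 4 × Fin 4 → ℂ := fun i => x (Sum.inr (Sum.inl i)) with hadef
  set s : Fin 4 × Fin 5 → ℂ := fun i => x (Sum.inr (Sum.inr i)) with hsdef
  set μ : Fin 4 → ℂ := fun e => a (e, 0) * s (0, 0) ^ 2 with hμdef
  have hμ : ∀ e, μ e ≠ 0 := fun e => mul_ne_zero (ha e) (pow_ne_zero 2 (hs 0))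
  set a' : Fin 4 × Fin 4 → ℂ := fun i => a i * s (i.2, 0) ^ 2 / μ i.1 with ha'def
  set s' : Fin 4 × Fin 5 → ℂ := fun i => s i / s (i.1, 0) with hs'def
  let x' : IS → ℂ := Sum.elim (fun t => x (Sum.inl t) * mono (fun e => μ e ^ 2) 4 t)
    (Sum.elim (fun i => a' (i.1, i.2.succ)) (fun i => s' (i.1, i.2.succ)))
  have h1 : slA x' = a' := by
    funext ⟨e, k⟩
    simp only [slA]
    refine Fin.cases ?_ (fun k' => ?_) k
    · simp only [Fin.cases_zero, ha'def]
      rw [eq_comm, div_eq_one_iff_eq (hμ e)]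
    · simp only [Fin.cases_succ]
      rfl
  have h2 : slS x' = s' := by
    funext ⟨e, k⟩
    simp only [slS]
    refine Fin.cases ?_ (fun k' => ?_) k
    · simp only [Fin.cases_zero, hs'def]
      rw [eq_comm, div_self (hs e)]
    · simp only [Fin.cases_succ]
      rfl
  refine ⟨x', ?_⟩
  have hq : ∀ e, QB a s e = C (μ e) * QB a' s' e := by
    intro e
    simp only [QB, Finset.mul_sum]
    refine Finset.sum_congr rfl fun k _ => ?_
    have hf : form 4 (fun l => s (k, l)) = C (s (k, 0)) * form 4 (fun l => s' (k, l)) := by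
      rw [← form_smul]
      congr 1
      funext l
      simp only [hs'def]
      rw [mul_div_cancel₀ _ (hs k)]
    rw [hf, mul_pow, ← mul_assoc, ← mul_assoc, ← C_pow, ← C_mul, ← C_mul]
    congr 2
    simp only [ha'def]
    rw [mul_div_cancel₀ _ (hμ e)]
  have h3 : GB x = comb 4 (fun t => x (Sum.inl t)) (fun e => C (μ e ^ 2) * (QB a' s' e) ^ 2) := by
    unfold GB
    refine congrArg _ (funext fun e => ?_)
    rw [hq, mul_pow, C_pow]
  have h4 : GB (sl x') = comb 4 (fun t => x (Sum.inl t) * mono (fun e => μ e ^ 2) 4 t)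
      (fun e => (QB a' s' e) ^ 2) := by
    unfold GB
    simp only [sl, Sum.elim_inl, Sum.elim_inr]
    rw [← h1, ← h2]
    rfl
  rw [h3, h4]
  simp only [comb]
  refine Finset.sum_congr rfl fun t _ => ?_
  rw [mono_smul, C_mul, mul_assoc]

theorem relB : ∃ P : MvPolynomial (Fin 65) ℂ, P ≠ 0 ∧
    ∀ x : IB → ℂ, eval (fun k => coeff (mon k) (GB x)) P = 0 := by
  obtain ⟨P, hP0, hP⟩ := exists_rel card_IS (fun k => coeff (mon k) (GB (sl (fun i => X i))))
  refine ⟨P, hP0, ?_⟩
  have h1 : ∀ x : IS → ℂ, eval (fun k => coeff (mon k) (GB (sl x))) P = 0 := by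
    intro x
    have h1 : ∀ k, coeff (mon k) (GB (sl x)) =
        eval x (coeff (mon k) (GB (sl (fun i => (X i : MvPolynomial IS ℂ))))) := by
      intro k
      rw [← coeff_map, map_GB]
      simp only [map_sl, eval_X]
    simp only [h1]
    rw [← eval_aeval', hP, map_zero]
  set Z := aeval (fun k => coeff (mon k) (GB (fun i => (X i : MvPolynomial IB ℂ)))) P with hZ
  have h2 : ∀ x : IB → ℂ, eval (fun k => coeff (mon k) (GB x)) P = eval x Z := by
    intro x
    rw [hZ, eval_aeval']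
    congr 2
    funext k
    rw [← coeff_map, map_GB]
    simp only [eval_X]
  have h3 : Z * ((∏ e : Fin 4, X (Sum.inr (Sum.inl (e, 0)))) *
      ∏ k : Fin 4, X (Sum.inr (Sum.inr (k, 0)))) = 0 := by
    apply MvPolynomial.funext
    intro x
    rw [map_zero, map_mul, map_mul, map_prod, map_prod]
    simp only [eval_X]
    by_cases ha : ∀ e : Fin 4, x (Sum.inr (Sum.inl (e, 0))) ≠ 0
    · by_cases hs : ∀ k : Fin 4, x (Sum.inr (Sum.inr (k, 0))) ≠ 0
      · obtain ⟨x', hx'⟩ := slice_eq x ha hs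
        rw [← h2, hx', h1, zero_mul]
      · push Not at hs
        obtain ⟨k, hk⟩ := hs
        have h0 : ∏ k : Fin 4, x (Sum.inr (Sum.inr (k, 0))) = 0 :=
          Finset.prod_eq_zero (Finset.mem_univ k) hk
        rw [h0]
        ring
    · push Not at ha
      obtain ⟨k, hk⟩ := ha
      rw [Finset.prod_eq_zero (Finset.mem_univ k) hk]
      ring
  have h4 : Z = 0 := by
    rcases mul_eq_zero.1 h3 with h | h
    · exact h
    · exfalso
      rcases mul_eq_zero.1 h with h | h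
      · rw [Finset.prod_eq_zero_iff] at h
        obtain ⟨_, _, h⟩ := h
        exact X_ne_zero _ h
      · rw [Finset.prod_eq_zero_iff] at h
        obtain ⟨_, _, h⟩ := h
        exact X_ne_zero _ h
  intro x
  rw [h2, h4, map_zero]

theorem nonfillB (e : Fin (7 + 1) → ℕ) (he0 : e 0 = 2) (he7 : e 7 = 1) (he3 : e 3 ≤ 4)
    (he4 : e 4 ≤ 4) : ¬ Fills e := by
  obtain ⟨P, hP0, hP⟩ := relB
  refine not_fills e he0 he7 P hP0 ?_
  intro W
  have key : ∃ x : IB → ℂ, net e W 0 = GB x := by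
    rw [net_eq]
    have h1 := layer1 he0 (W 0)
    have h2 := layer_S (n := e 1) (W 1) _ h1
    have h3 := layer_S (n := e 2) (W 2) _ h2
    generalize step 2 (e 2) (W 2) (step 2 (e 1) (W 1)
      (step 1 (e 0) (W 0) (fun b => X b))) = g3 at h3
    choose q hq using fun b => exists_form (h3 b)
    set g4 := step 2 (e 3) (W 3) g3 with hg4
    let y : Fin 4 → MvPolynomial ℕ ℂ := fun c => (g4 c) ^ 2
    have h5 : ∀ a, step 2 (e 4) (W 4) g4 a ∈ V y 1 := by
      intro a
      refine step_mem _ (fun b hb => ?_) a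
      exact self_mem_V y ⟨b, by omega⟩
    have h6 : ∀ a, step 2 (e 5) (W 5) (step 2 (e 4) (W 4) g4) a ∈ V y 2 := fun a =>
      step_mem _ (fun b _ => sq_mem_V y (h5 b)) a
    have h7 : step 2 (e 6) (W 6) (step 2 (e 5) (W 5) (step 2 (e 4) (W 4) g4)) 0 ∈ V y 4 :=
      step_mem _ (fun b _ => sq_mem_V y (h6 b)) 0
    obtain ⟨F, hF⟩ := exists_comb y h7
    refine ⟨Sum.elim F (Sum.elim (fun ci => if (ci.2 : ℕ) < e 3 then W 3 ci.1 ci.2 else 0)
      (fun il => q il.1 il.2)), ?_⟩
    refine hF.trans (congrArg (comb 4 F) (funext fun c => ?_))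
    refine congrArg (fun z => z ^ 2) ?_
    rw [hg4, step_four he3]
    refine Finset.sum_congr rfl fun i _ => ?_
    rw [hq i]
    rfl
  obtain ⟨x, hx⟩ := key
  rw [hx]
  exact hP x

end Pool.Agent.TH203.Uni
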