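import Mathlib

set_option autoImplicit false

/-! The certificate: an invertible matrix modulo 97. -/

namespace Pool.Agent.TH203.Uni

/-- Addition of coefficient lists. -/
def addL : List ℕ → List ℕ → List ℕ
  | [], b => b
  | x :: a, [] => x :: a
  | x :: a, y :: b => (x + y) :: addL a b

/-- Multiplication of coefficient lists. -/
def mulL : List ℕ → List ℕ → List ℕ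
  | [], _ => []
  | x :: a, b => addL (b.map (fun z => x * z)) (0 :: mulL a b)

/-- Scalar product. -/
def dot : List ℕ → List ℕ → ℕ
  | x :: a, y :: b => x * y + dot a b
  | _, _ => 0

/-- The four basic polynomials. -/
def bas : ℕ → List ℕ
  | 0 => [0, 0, 0, 0, 0, 0, 0, 0, 1]
  | 1 => [1]
  | 2 => [0, 1, 0, 0, 1, 0, 0, 2]
  | _ => [1, 0, 0, 1, 0, 0, 1]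

/-- The list of a monomial. -/
def sh : ℕ → List ℕ
  | 0 => [1]
  | n + 1 => 0 :: sh n

/-- Squares. -/
def sqL (a : List ℕ) : List ℕ := mulL a a

/-- Seventh powers. -/
def pw7 (a : List ℕ) : List ℕ := mulL (sqL (sqL a)) (mulL (sqL a) a)

/-- Products of four squares. -/
def prL (t : ℕ × ℕ × ℕ × ℕ) : List ℕ :=
  mulL (mulL (sqL (bas t.1)) (sqL (bas t.2.1))) (mulL (sqL (bas t.2.2.1)) (sqL (bas t.2.2.2)))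

/-- The quadruples used. -/
def quads : List (ℕ × ℕ × ℕ × ℕ) :=
  [(0, 0, 0, 1), (0, 0, 0, 2), (0, 0, 0, 3), (0, 0, 1, 1), (0, 0, 1, 2), (0, 0, 1, 3), (0, 0, 2, 2), (0, 0, 2, 3), (0, 0, 3, 3), (0, 1, 1, 1), (0, 1, 1, 2), (0, 1, 1, 3), (0, 1, 2, 2), (0, 1, 2, 3), (0, 1, 3, 3), (0, 2, 2, 2), (0, 2, 2, 3), (0, 2, 3, 3), (0, 3, 3, 3), (1, 1, 1, 2), (1, 1, 1, 3), (1, 1, 2, 2), (1, 1, 2, 3), (1, 1, 3, 3), (1, 2, 2, 2), (1, 2, 2, 3), (1, 2, 3, 3), (1, 3, 3, 3), (2, 2, 3, 3)]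

/-- The rows. -/
def rows : List (List ℕ) :=
  ((List.range 9).map fun l => mulL (pw7 (bas 0)) (sh l)) ++
  ((List.range 9).map fun l => mulL (pw7 (bas 1)) (sh l)) ++
  ((List.range 9).map fun l => mulL (pw7 (bas 2)) (sh l)) ++
  ((List.range 9).map fun l => mulL (pw7 (bas 3)) (sh l)) ++
  quads.map prL

/-- The columns of the inverse matrix. -/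
def cols : List (List ℕ) :=
  [[0, 0, 0, 0, 0, 0, 0, 0, 0, 0, 0, 42, 0, 0, 55, 0, 0, 87, 0, 0, 52, 0, 0, 43, 0, 0, 22, 0, 0, 51, 0, 0, 0, 0, 0, 65, 0, 0, 45, 0, 0, 10, 0, 0, 6, 0, 0, 19, 0, 0, 22, 0, 0, 35, 0, 0, 1, 0, 0, 0, 0, 0, 0, 0, 0],
   [0, 0, 0, 0, 0, 0, 0, 0, 0, 78, 0, 0, 38, 0, 0, 78, 0, 0, 2, 0, 0, 83, 0, 0, 19, 0, 0, 53, 0, 0, 51, 0, 0, 39, 0, 0, 9, 0, 0, 5, 0, 0, 62, 0, 0, 20, 0, 0, 0, 0, 0, 66, 0, 0, 20, 0, 0, 1, 0, 0, 0, 0, 0, 0, 0],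
   [0, 0, 0, 0, 0, 0, 0, 0, 0, 0, 7, 0, 0, 7, 0, 0, 0, 0, 0, 14, 0, 0, 91, 0, 0, 6, 0, 0, 75, 0, 0, 69, 0, 0, 78, 0, 0, 64, 0, 0, 29, 0, 0, 82, 0, 0, 0, 0, 0, 95, 0, 0, 54, 0, 0, 41, 0, 0, 1, 0, 0, 0, 0, 0, 0],
   [0, 0, 0, 0, 0, 0, 0, 0, 0, 0, 0, 41, 0, 0, 56, 0, 0, 22, 0, 0, 32, 0, 0, 77, 0, 0, 29, 0, 0, 51, 0, 0, 0, 0, 0, 48, 0, 0, 45, 0, 0, 22, 0, 0, 16, 0, 0, 93, 0, 0, 65, 0, 0, 14, 0, 0, 0, 0, 0, 1, 0, 0, 0, 0, 0],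
   [0, 0, 0, 0, 0, 0, 0, 0, 0, 87, 0, 0, 20, 0, 0, 24, 0, 0, 54, 0, 0, 1, 0, 0, 16, 0, 0, 34, 0, 0, 29, 0, 0, 49, 0, 0, 92, 0, 0, 45, 0, 0, 17, 0, 0, 34, 0, 0, 0, 0, 0, 50, 0, 0, 31, 0, 0, 0, 0, 0, 1, 0, 0, 0, 0],
   [0, 0, 0, 0, 0, 0, 0, 0, 0, 0, 0, 0, 0, 0, 0, 0, 0, 0, 0, 0, 0, 0, 0, 0, 0, 0, 0, 0, 0, 0, 0, 0, 0, 0, 0, 0, 0, 0, 0, 0, 0, 0, 0, 0, 0, 0, 0, 0, 0, 0, 0, 0, 0, 0, 0, 0, 0, 0, 0, 0, 0, 1, 0, 0, 0],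
   [0, 0, 0, 0, 0, 0, 0, 0, 0, 0, 0, 41, 0, 0, 56, 0, 0, 22, 0, 0, 32, 0, 0, 77, 0, 0, 29, 0, 0, 51, 0, 0, 0, 0, 0, 48, 0, 0, 45, 0, 0, 22, 0, 0, 16, 0, 0, 93, 0, 0, 65, 0, 0, 14, 0, 0, 0, 0, 0, 0, 0, 0, 1, 0, 0],
   [0, 0, 0, 0, 0, 0, 0, 0, 0, 0, 0, 0, 0, 0, 0, 0, 0, 0, 0, 0, 0, 0, 0, 0, 0, 0, 0, 0, 0, 0, 0, 0, 0, 0, 0, 0, 0, 0, 0, 0, 0, 0, 0, 0, 0, 0, 0, 0, 0, 0, 0, 0, 0, 0, 0, 0, 0, 0, 0, 0, 0, 0, 0, 1, 0],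
   [0, 0, 0, 0, 0, 0, 0, 0, 0, 0, 0, 0, 0, 0, 0, 0, 0, 0, 0, 0, 0, 0, 0, 0, 0, 0, 0, 0, 0, 0, 0, 0, 0, 0, 0, 0, 0, 0, 0, 0, 0, 0, 0, 0, 0, 0, 0, 0, 0, 0, 0, 0, 0, 0, 0, 0, 0, 0, 0, 0, 0, 0, 0, 0, 1],
   [1, 0, 0, 0, 0, 0, 0, 0, 0, 95, 0, 0, 3, 0, 0, 36, 0, 0, 49, 0, 0, 9, 0, 0, 36, 0, 0, 81, 0, 0, 27, 0, 0, 56, 0, 0, 9, 0, 0, 47, 0, 0, 19, 0, 0, 88, 0, 0, 0, 0, 0, 32, 0, 0, 11, 0, 0, 0, 0, 0, 0, 0, 0, 0, 0],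
   [0, 1, 0, 0, 0, 0, 0, 0, 0, 0, 66, 0, 0, 9, 0, 0, 0, 0, 0, 9, 0, 0, 20, 0, 0, 92, 0, 0, 29, 0, 0, 54, 0, 0, 45, 0, 0, 51, 0, 0, 6, 0, 0, 85, 0, 0, 89, 0, 0, 24, 0, 0, 82, 0, 0, 0, 0, 0, 0, 0, 0, 0, 0, 0, 0],
   [0, 0, 1, 0, 0, 0, 0, 0, 0, 0, 0, 18, 0, 0, 6, 0, 0, 17, 0, 0, 26, 0, 0, 93, 0, 0, 27, 0, 0, 86, 0, 0, 0, 0, 0, 83, 0, 0, 32, 0, 0, 39, 0, 0, 48, 0, 0, 44, 0, 0, 75, 0, 0, 11, 0, 0, 0, 0, 0, 0, 0, 0, 0, 0, 0],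
   [0, 0, 0, 1, 0, 0, 0, 0, 0, 34, 0, 0, 27, 0, 0, 69, 0, 0, 56, 0, 0, 23, 0, 0, 93, 0, 0, 8, 0, 0, 20, 0, 0, 30, 0, 0, 83, 0, 0, 21, 0, 0, 89, 0, 0, 73, 0, 0, 0, 0, 0, 14, 0, 0, 23, 0, 0, 0, 0, 0, 0, 0, 0, 0, 0],
   [0, 0, 0, 0, 1, 0, 0, 0, 0, 0, 79, 0, 0, 66, 0, 0, 0, 0, 0, 6, 0, 0, 37, 0, 0, 55, 0, 0, 58, 0, 0, 86, 0, 0, 12, 0, 0, 85, 0, 0, 56, 0, 0, 35, 0, 0, 92, 0, 0, 69, 0, 0, 68, 0, 0, 7, 0, 0, 0, 0, 0, 0, 0, 0, 0],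
   [0, 0, 0, 0, 0, 1, 0, 0, 0, 0, 0, 29, 0, 0, 19, 0, 0, 26, 0, 0, 20, 0, 0, 50, 0, 0, 29, 0, 0, 80, 0, 0, 0, 0, 0, 76, 0, 0, 20, 0, 0, 36, 0, 0, 7, 0, 0, 65, 0, 0, 70, 0, 0, 62, 0, 0, 0, 0, 0, 0, 0, 0, 0, 0, 0],
   [0, 0, 0, 0, 0, 0, 1, 0, 0, 27, 0, 0, 40, 0, 0, 21, 0, 0, 94, 0, 0, 66, 0, 0, 71, 0, 0, 62, 0, 0, 11, 0, 0, 78, 0, 0, 6, 0, 0, 50, 0, 0, 9, 0, 0, 51, 0, 0, 0, 0, 0, 72, 0, 0, 49, 0, 0, 0, 0, 0, 0, 0, 0, 0, 0],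
   [0, 0, 0, 0, 0, 0, 0, 1, 0, 0, 85, 0, 0, 63, 0, 0, 0, 0, 0, 74, 0, 0, 63, 0, 0, 40, 0, 0, 68, 0, 0, 88, 0, 0, 4, 0, 0, 16, 0, 0, 92, 0, 0, 86, 0, 0, 81, 0, 0, 25, 0, 0, 38, 0, 0, 78, 0, 0, 0, 0, 0, 0, 0, 0, 0],
   [0, 0, 0, 0, 0, 0, 0, 0, 1, 0, 0, 10, 0, 0, 13, 0, 0, 58, 0, 0, 92, 0, 0, 91, 0, 0, 78, 0, 0, 66, 0, 0, 0, 0, 0, 73, 0, 0, 84, 0, 0, 33, 0, 0, 21, 0, 0, 42, 0, 0, 83, 0, 0, 7, 0, 0, 0, 0, 0, 0, 0, 0, 0, 0, 0],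
   [0, 0, 0, 0, 0, 0, 0, 0, 0, 0, 96, 0, 0, 75, 0, 0, 0, 0, 0, 86, 0, 0, 39, 0, 0, 45, 0, 0, 9, 0, 0, 7, 0, 0, 36, 0, 0, 75, 0, 0, 28, 0, 0, 60, 0, 0, 4, 0, 0, 82, 0, 0, 0, 0, 0, 25, 0, 0, 0, 0, 0, 0, 0, 0, 0],
   [0, 0, 0, 0, 0, 0, 0, 0, 0, 0, 0, 53, 0, 0, 44, 0, 0, 55, 0, 0, 65, 0, 0, 0, 0, 0, 38, 0, 0, 92, 0, 0, 0, 0, 0, 6, 0, 0, 34, 0, 0, 64, 0, 0, 49, 0, 0, 70, 0, 0, 43, 0, 0, 27, 0, 0, 0, 0, 0, 0, 0, 0, 0, 0, 0],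
   [0, 0, 0, 0, 0, 0, 0, 0, 0, 33, 0, 0, 31, 0, 0, 86, 0, 0, 39, 0, 0, 2, 0, 0, 19, 0, 0, 41, 0, 0, 70, 0, 0, 62, 0, 0, 46, 0, 0, 72, 0, 0, 62, 0, 0, 29, 0, 0, 0, 0, 0, 48, 0, 0, 65, 0, 0, 0, 0, 0, 0, 0, 0, 0, 0],
   [0, 0, 0, 0, 0, 0, 0, 0, 0, 0, 17, 0, 0, 35, 0, 0, 0, 0, 0, 27, 0, 0, 82, 0, 0, 74, 0, 0, 37, 0, 0, 53, 0, 0, 25, 0, 0, 13, 0, 0, 12, 0, 0, 55, 0, 0, 87, 0, 0, 83, 0, 0, 56, 0, 0, 14, 0, 0, 0, 0, 0, 0, 0, 0, 0],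
   [0, 0, 0, 0, 0, 0, 0, 0, 0, 0, 0, 43, 0, 0, 54, 0, 0, 33, 0, 0, 69, 0, 0, 48, 0, 0, 20, 0, 0, 69, 0, 0, 0, 0, 0, 22, 0, 0, 25, 0, 0, 59, 0, 0, 54, 0, 0, 78, 0, 0, 89, 0, 0, 4, 0, 0, 0, 0, 0, 0, 0, 0, 0, 0, 0],
   [0, 0, 0, 0, 0, 0, 0, 0, 0, 26, 0, 0, 45, 0, 0, 29, 0, 0, 40, 0, 0, 28, 0, 0, 81, 0, 0, 34, 0, 0, 59, 0, 0, 95, 0, 0, 32, 0, 0, 52, 0, 0, 78, 0, 0, 7, 0, 0, 0, 0, 0, 29, 0, 0, 13, 0, 0, 0, 0, 0, 0, 0, 0, 0, 0],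
   [0, 0, 0, 0, 0, 0, 0, 0, 0, 0, 57, 0, 0, 57, 0, 0, 0, 0, 0, 17, 0, 0, 62, 0, 0, 35, 0, 0, 1, 0, 0, 63, 0, 0, 67, 0, 0, 50, 0, 0, 56, 0, 0, 58, 0, 0, 0, 0, 0, 53, 0, 0, 24, 0, 0, 4, 0, 0, 0, 0, 0, 0, 0, 0, 0],
   [0, 0, 0, 0, 0, 0, 0, 0, 0, 0, 0, 37, 0, 0, 60, 0, 0, 3, 0, 0, 40, 0, 0, 4, 0, 0, 49, 0, 0, 27, 0, 0, 0, 0, 0, 13, 0, 0, 89, 0, 0, 78, 0, 0, 36, 0, 0, 6, 0, 0, 41, 0, 0, 28, 0, 0, 0, 0, 0, 0, 0, 0, 0, 0, 0],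
   [0, 0, 0, 0, 0, 0, 0, 0, 0, 25, 0, 0, 47, 0, 0, 71, 0, 0, 66, 0, 0, 85, 0, 0, 63, 0, 0, 13, 0, 0, 19, 0, 0, 77, 0, 0, 87, 0, 0, 9, 0, 0, 21, 0, 0, 61, 0, 0, 0, 0, 0, 23, 0, 0, 17, 0, 0, 0, 0, 0, 0, 0, 0, 0, 0],
   [0, 0, 0, 0, 0, 0, 0, 0, 0, 91, 0, 0, 12, 0, 0, 72, 0, 0, 53, 0, 0, 11, 0, 0, 82, 0, 0, 66, 0, 0, 31, 0, 0, 45, 0, 0, 49, 0, 0, 76, 0, 0, 19, 0, 0, 81, 0, 0, 0, 0, 0, 48, 0, 0, 65, 0, 0, 0, 0, 0, 0, 0, 0, 0, 0],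
   [0, 0, 0, 0, 0, 0, 0, 0, 0, 0, 31, 0, 0, 88, 0, 0, 0, 0, 0, 88, 0, 0, 77, 0, 0, 5, 0, 0, 68, 0, 0, 43, 0, 0, 52, 0, 0, 46, 0, 0, 91, 0, 0, 12, 0, 0, 8, 0, 0, 73, 0, 0, 15, 0, 0, 0, 0, 0, 0, 0, 0, 0, 0, 0, 0],
   [0, 0, 0, 0, 0, 0, 0, 0, 0, 0, 0, 23, 0, 0, 74, 0, 0, 16, 0, 0, 11, 0, 0, 42, 0, 0, 50, 0, 0, 64, 0, 0, 0, 0, 0, 57, 0, 0, 65, 0, 0, 1, 0, 0, 77, 0, 0, 14, 0, 0, 29, 0, 0, 34, 0, 0, 0, 0, 0, 0, 0, 0, 0, 0, 0],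
   [0, 0, 0, 0, 0, 0, 0, 0, 0, 67, 0, 0, 60, 0, 0, 96, 0, 0, 37, 0, 0, 96, 0, 0, 57, 0, 0, 71, 0, 0, 43, 0, 0, 80, 0, 0, 84, 0, 0, 95, 0, 0, 37, 0, 0, 19, 0, 0, 0, 0, 0, 54, 0, 0, 61, 0, 0, 0, 0, 0, 0, 0, 0, 0, 0],
   [0, 0, 0, 0, 0, 0, 0, 0, 0, 0, 49, 0, 0, 58, 0, 0, 0, 0, 0, 82, 0, 0, 23, 0, 0, 90, 0, 0, 72, 0, 0, 40, 0, 0, 33, 0, 0, 53, 0, 0, 11, 0, 0, 48, 0, 0, 49, 0, 0, 77, 0, 0, 64, 0, 0, 66, 0, 0, 0, 0, 0, 0, 0, 0, 0],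
   [0, 0, 0, 0, 0, 0, 0, 0, 0, 0, 0, 87, 0, 0, 10, 0, 0, 94, 0, 0, 16, 0, 0, 32, 0, 0, 94, 0, 0, 27, 0, 0, 0, 0, 0, 83, 0, 0, 56, 0, 0, 47, 0, 0, 57, 0, 0, 17, 0, 0, 1, 0, 0, 48, 0, 0, 0, 0, 0, 0, 0, 0, 0, 0, 0],
   [0, 0, 0, 0, 0, 0, 0, 0, 0, 60, 0, 0, 74, 0, 0, 25, 0, 0, 95, 0, 0, 86, 0, 0, 14, 0, 0, 25, 0, 0, 12, 0, 0, 96, 0, 0, 70, 0, 0, 28, 0, 0, 47, 0, 0, 38, 0, 0, 0, 0, 0, 92, 0, 0, 68, 0, 0, 0, 0, 0, 0, 0, 0, 0, 0],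
   [0, 0, 0, 0, 0, 0, 0, 0, 0, 0, 56, 0, 0, 79, 0, 0, 0, 0, 0, 47, 0, 0, 18, 0, 0, 20, 0, 0, 6, 0, 0, 38, 0, 0, 40, 0, 0, 73, 0, 0, 32, 0, 0, 24, 0, 0, 35, 0, 0, 30, 0, 0, 48, 0, 0, 11, 0, 0, 0, 0, 0, 0, 0, 0, 0],
   [0, 0, 0, 0, 0, 0, 0, 0, 0, 0, 0, 36, 0, 0, 61, 0, 0, 0, 0, 0, 3, 0, 0, 13, 0, 0, 8, 0, 0, 48, 0, 0, 0, 0, 0, 85, 0, 0, 29, 0, 0, 62, 0, 0, 7, 0, 0, 52, 0, 0, 4, 0, 0, 95, 0, 0, 0, 0, 0, 0, 0, 0, 0, 0, 0],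
   [0, 0, 0, 0, 0, 0, 0, 0, 0, 15, 0, 0, 67, 0, 0, 54, 0, 0, 89, 0, 0, 22, 0, 0, 40, 0, 0, 63, 0, 0, 72, 0, 0, 42, 0, 0, 23, 0, 0, 80, 0, 0, 85, 0, 0, 25, 0, 0, 1, 0, 0, 0, 0, 0, 32, 0, 0, 0, 0, 0, 0, 0, 0, 0, 0],
   [0, 0, 0, 0, 0, 0, 0, 0, 0, 0, 0, 14, 0, 0, 83, 0, 0, 43, 0, 0, 89, 0, 0, 5, 0, 0, 17, 0, 0, 60, 0, 0, 0, 0, 0, 85, 0, 0, 13, 0, 0, 43, 0, 0, 93, 0, 0, 1, 0, 0, 8, 0, 0, 45, 0, 0, 0, 0, 0, 0, 0, 0, 0, 0, 0],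
   [0, 0, 0, 0, 0, 0, 0, 0, 0, 2, 0, 0, 93, 0, 0, 24, 0, 0, 95, 0, 0, 8, 0, 0, 36, 0, 0, 38, 0, 0, 59, 0, 0, 22, 0, 0, 87, 0, 0, 33, 0, 0, 58, 0, 0, 1, 0, 0, 0, 0, 0, 41, 0, 0, 70, 0, 0, 0, 0, 0, 0, 0, 0, 0, 0],
   [0, 0, 0, 0, 0, 0, 0, 0, 0, 0, 0, 69, 0, 0, 28, 0, 0, 48, 0, 0, 70, 0, 0, 65, 0, 0, 29, 0, 0, 38, 0, 0, 1, 0, 0, 5, 0, 0, 59, 0, 0, 87, 0, 0, 26, 0, 0, 76, 0, 0, 33, 0, 0, 32, 0, 0, 0, 0, 0, 0, 0, 0, 0, 0, 0],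
   [0, 0, 0, 0, 0, 0, 0, 0, 0, 0, 3, 0, 0, 37, 0, 0, 0, 0, 0, 58, 0, 0, 55, 0, 0, 34, 0, 0, 39, 0, 0, 86, 0, 0, 40, 0, 0, 20, 0, 0, 54, 0, 0, 64, 0, 0, 67, 0, 0, 28, 0, 0, 61, 0, 0, 93, 0, 0, 0, 0, 0, 0, 0, 0, 0],
   [0, 0, 0, 0, 0, 0, 0, 0, 0, 0, 0, 19, 0, 0, 78, 0, 0, 47, 0, 0, 23, 0, 0, 2, 0, 0, 31, 0, 0, 12, 0, 0, 0, 0, 0, 15, 0, 0, 59, 0, 0, 0, 0, 0, 85, 0, 0, 51, 0, 0, 15, 0, 0, 41, 0, 0, 0, 0, 0, 0, 0, 0, 0, 0, 0],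
   [0, 0, 0, 0, 0, 0, 0, 0, 0, 49, 0, 0, 96, 0, 0, 94, 0, 0, 21, 0, 0, 54, 0, 0, 21, 0, 0, 44, 0, 0, 43, 0, 0, 38, 0, 0, 7, 0, 0, 80, 0, 0, 62, 0, 0, 16, 0, 0, 0, 0, 0, 61, 0, 0, 24, 0, 0, 0, 0, 0, 0, 0, 0, 0, 0],
   [0, 0, 0, 0, 0, 0, 0, 0, 0, 0, 37, 0, 0, 82, 0, 0, 0, 0, 0, 85, 0, 0, 48, 0, 0, 83, 0, 0, 5, 0, 0, 10, 0, 0, 2, 0, 0, 7, 0, 0, 71, 0, 0, 68, 0, 0, 9, 0, 0, 65, 0, 0, 4, 0, 0, 57, 0, 0, 0, 0, 0, 0, 0, 0, 0],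
   [0, 0, 0, 0, 0, 0, 0, 0, 0, 0, 0, 94, 0, 0, 3, 0, 0, 61, 0, 0, 45, 0, 0, 54, 0, 0, 7, 0, 0, 68, 0, 0, 0, 0, 0, 42, 0, 0, 64, 0, 0, 10, 0, 0, 92, 0, 0, 41, 0, 0, 3, 0, 0, 47, 0, 0, 0, 0, 0, 0, 0, 0, 0, 0, 0],
   [0, 0, 0, 0, 0, 0, 0, 0, 0, 0, 70, 0, 0, 18, 0, 0, 1, 0, 0, 51, 0, 0, 9, 0, 0, 15, 0, 0, 34, 0, 0, 38, 0, 0, 33, 0, 0, 42, 0, 0, 41, 0, 0, 83, 0, 0, 79, 0, 0, 39, 0, 0, 37, 0, 0, 45, 0, 0, 0, 0, 0, 0, 0, 0, 0],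
   [0, 0, 0, 0, 0, 0, 0, 0, 0, 65, 0, 0, 64, 0, 0, 84, 0, 0, 69, 0, 0, 19, 0, 0, 96, 0, 0, 74, 0, 0, 22, 0, 0, 60, 0, 0, 32, 0, 0, 82, 0, 0, 34, 0, 0, 12, 0, 0, 0, 0, 0, 55, 0, 0, 28, 0, 0, 0, 0, 0, 0, 0, 0, 0, 0],
   [0, 0, 0, 0, 0, 0, 0, 0, 0, 0, 91, 0, 0, 31, 0, 0, 0, 0, 0, 3, 0, 0, 85, 0, 0, 36, 0, 0, 56, 0, 0, 40, 0, 0, 24, 0, 0, 87, 0, 0, 53, 0, 0, 43, 0, 0, 11, 0, 0, 31, 0, 0, 39, 0, 0, 40, 0, 0, 0, 0, 0, 0, 0, 0, 0],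
   [0, 0, 0, 0, 0, 0, 0, 0, 0, 0, 0, 85, 0, 0, 12, 0, 0, 49, 0, 0, 29, 0, 0, 16, 0, 0, 52, 0, 0, 14, 0, 0, 0, 0, 0, 31, 0, 0, 95, 0, 0, 67, 0, 0, 4, 0, 0, 48, 0, 0, 87, 0, 0, 5, 0, 0, 0, 0, 0, 0, 0, 0, 0, 0, 0],
   [0, 0, 0, 0, 0, 0, 0, 0, 0, 63, 0, 0, 68, 0, 0, 73, 0, 0, 46, 0, 0, 1, 0, 0, 45, 0, 0, 93, 0, 0, 57, 0, 0, 48, 0, 0, 43, 0, 0, 13, 0, 0, 85, 0, 0, 24, 0, 0, 0, 0, 0, 32, 0, 0, 11, 0, 0, 0, 0, 0, 0, 0, 0, 0, 0],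
   [0, 0, 0, 0, 0, 0, 0, 0, 0, 0, 46, 0, 0, 44, 0, 0, 0, 0, 0, 81, 0, 0, 56, 0, 0, 90, 0, 0, 72, 0, 0, 13, 0, 0, 26, 0, 0, 66, 0, 0, 39, 0, 0, 67, 0, 0, 63, 0, 0, 47, 0, 0, 96, 0, 0, 32, 0, 0, 0, 0, 0, 0, 0, 0, 0],
   [0, 0, 0, 0, 0, 0, 0, 0, 0, 0, 87, 0, 0, 66, 0, 0, 0, 0, 0, 46, 0, 0, 85, 0, 0, 22, 0, 0, 94, 0, 0, 18, 0, 0, 32, 0, 0, 41, 0, 0, 33, 0, 0, 46, 0, 0, 54, 0, 0, 96, 0, 0, 8, 0, 0, 64, 0, 0, 0, 0, 0, 0, 0, 0, 0],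
   [0, 0, 0, 0, 0, 0, 0, 0, 0, 0, 0, 67, 0, 0, 30, 0, 0, 20, 0, 0, 22, 0, 0, 21, 0, 0, 1, 0, 0, 67, 0, 0, 0, 0, 0, 81, 0, 0, 41, 0, 0, 10, 0, 0, 83, 0, 0, 51, 0, 0, 62, 0, 0, 66, 0, 0, 0, 0, 0, 0, 0, 0, 0, 0, 0],
   [0, 0, 0, 0, 0, 0, 0, 0, 0, 94, 0, 0, 6, 0, 0, 68, 0, 0, 8, 0, 0, 74, 0, 0, 22, 0, 0, 61, 0, 0, 18, 0, 0, 58, 0, 0, 54, 0, 0, 39, 0, 0, 12, 0, 0, 67, 0, 0, 0, 0, 0, 49, 0, 0, 32, 0, 0, 0, 0, 0, 0, 0, 0, 0, 0],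
   [0, 0, 0, 0, 0, 0, 0, 0, 0, 0, 25, 0, 0, 73, 0, 0, 0, 0, 0, 93, 0, 0, 28, 0, 0, 84, 0, 0, 47, 0, 0, 36, 0, 0, 86, 0, 0, 31, 0, 0, 13, 0, 0, 31, 0, 0, 37, 0, 0, 66, 0, 0, 11, 0, 0, 92, 0, 0, 0, 0, 0, 0, 0, 0, 0],
   [0, 0, 0, 0, 0, 0, 0, 0, 0, 0, 0, 1, 0, 0, 72, 0, 0, 53, 0, 0, 27, 0, 0, 46, 0, 0, 70, 0, 0, 96, 0, 0, 0, 0, 0, 26, 0, 0, 7, 0, 0, 16, 0, 0, 89, 0, 0, 55, 0, 0, 25, 0, 0, 36, 0, 0, 0, 0, 0, 0, 0, 0, 0, 0, 0],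
   [0, 0, 0, 0, 0, 0, 0, 0, 0, 15, 0, 0, 68, 0, 0, 37, 0, 0, 73, 0, 0, 45, 0, 0, 70, 0, 0, 39, 0, 0, 51, 0, 0, 32, 0, 0, 46, 0, 0, 11, 0, 0, 7, 0, 0, 16, 0, 0, 0, 0, 0, 56, 0, 0, 92, 0, 0, 0, 0, 0, 0, 0, 0, 0, 0],
   [0, 0, 0, 0, 0, 0, 0, 0, 0, 0, 47, 0, 0, 13, 0, 0, 0, 0, 0, 69, 0, 0, 17, 0, 0, 64, 0, 0, 71, 0, 0, 73, 0, 0, 6, 0, 0, 48, 0, 0, 29, 0, 0, 16, 0, 0, 92, 0, 0, 42, 0, 0, 60, 0, 0, 41, 0, 0, 0, 0, 0, 0, 0, 0, 0],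
   [0, 0, 0, 0, 0, 0, 0, 0, 0, 0, 0, 62, 0, 0, 35, 0, 0, 8, 0, 0, 37, 0, 0, 79, 0, 0, 11, 0, 0, 72, 0, 0, 0, 0, 0, 1, 0, 0, 9, 0, 0, 87, 0, 0, 88, 0, 0, 0, 0, 0, 66, 0, 0, 64, 0, 0, 0, 0, 0, 0, 0, 0, 0, 0, 0],
   [0, 0, 0, 0, 0, 0, 0, 0, 0, 72, 0, 0, 50, 0, 0, 82, 0, 0, 71, 0, 0, 45, 0, 0, 62, 0, 0, 91, 0, 0, 58, 0, 0, 88, 0, 0, 86, 0, 0, 30, 0, 0, 50, 0, 0, 33, 0, 0, 0, 0, 0, 44, 0, 0, 3, 0, 0, 0, 0, 0, 0, 0, 0, 0, 0],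
   [0, 0, 0, 0, 0, 0, 0, 0, 0, 21, 0, 0, 55, 0, 0, 35, 0, 0, 74, 0, 0, 11, 0, 0, 88, 0, 0, 30, 0, 0, 30, 0, 0, 22, 0, 0, 83, 0, 0, 46, 0, 0, 45, 0, 0, 61, 0, 0, 0, 0, 0, 25, 0, 0, 48, 0, 0, 0, 0, 0, 0, 0, 0, 0, 0],
   [0, 0, 0, 0, 0, 0, 0, 0, 0, 0, 26, 0, 0, 61, 0, 0, 0, 0, 0, 75, 0, 0, 1, 0, 0, 26, 0, 0, 86, 0, 0, 70, 0, 0, 60, 0, 0, 91, 0, 0, 18, 0, 0, 12, 0, 0, 2, 0, 0, 6, 0, 0, 88, 0, 0, 11, 0, 0, 0, 0, 0, 0, 0, 0, 0],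
   [0, 0, 0, 0, 0, 0, 0, 0, 0, 0, 0, 90, 0, 0, 7, 0, 0, 3, 0, 0, 93, 0, 0, 31, 0, 0, 36, 0, 0, 70, 0, 0, 0, 0, 0, 27, 0, 0, 81, 0, 0, 51, 0, 0, 86, 0, 0, 81, 0, 0, 96, 0, 0, 49, 0, 0, 0, 0, 0, 0, 0, 0, 0, 0, 0],
   [0, 0, 0, 0, 0, 0, 0, 0, 0, 18, 0, 0, 61, 0, 0, 64, 0, 0, 45, 0, 0, 84, 0, 0, 41, 0, 0, 14, 0, 0, 27, 0, 0, 70, 0, 0, 4, 0, 0, 30, 0, 0, 2, 0, 0, 73, 0, 0, 0, 0, 0, 14, 0, 0, 23, 0, 0, 0, 0, 0, 0, 0, 0, 0, 0],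
   [0, 0, 0, 0, 0, 0, 0, 0, 0, 0, 67, 0, 0, 59, 0, 0, 0, 0, 0, 25, 0, 0, 62, 0, 0, 21, 0, 0, 13, 0, 0, 12, 0, 0, 10, 0, 0, 80, 0, 0, 25, 0, 0, 96, 0, 0, 0, 0, 0, 71, 0, 0, 3, 0, 0, 69, 0, 0, 0, 0, 0, 0, 0, 0, 0]]

/-- Check of one row. -/
def chk (i : ℕ) (r : List ℕ) : List (List ℕ) → ℕ → Bool
  | [], _ => true
  | c :: cs, j => (dot r c % 97 == (if i == j then 1 else 0)) && chk i r cs (j + 1)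

/-- Check of all the rows. -/
def chkAll : List (List ℕ) → ℕ → Bool
  | [], _ => true
  | r :: rs, i => chk i r cols 0 && chkAll rs (i + 1)

theorem chkAll_ok : chkAll rows 0 = true := by decide +kernel

theorem rows_length : rows.length = 65 := by decide +kernel

theorem cols_length : cols.length = 65 := by decide +kernel

theorem cols_lengths : ∀ c ∈ cols, c.length = 65 := by decide +kernel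

end Pool.Agent.TH203.Uni
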