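import Mathlib

set_option autoImplicit false

/-! Polynomial neural networks of depth 7 with quadratic activation: basic definitions. -/

namespace Pool.Agent.TH203.Uni

open MvPolynomial

/-- One layer of the network. -/
noncomputable def step (s n : ℕ) (A : ℕ → ℕ → ℂ) (h : ℕ → MvPolynomial ℕ ℂ) (a : ℕ) :
    MvPolynomial ℕ ℂ :=
  ∑ b ∈ Finset.range n, C (A a b) * h b ^ s

/-- The outputs of the network. -/
noncomputable def net (e : Fin (7 + 1) → ℕ) (W : Fin 7 → ℕ → ℕ → ℂ) : ℕ → MvPolynomial ℕ ℂ :=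
  (List.finRange 7).foldl
    (fun (h : ℕ → MvPolynomial ℕ ℂ) (k : Fin 7) (a : ℕ) =>
      ∑ b ∈ Finset.range (e k.castSucc),
        MvPolynomial.C (W k a b) * h b ^ (if (k : ℕ) = 0 then 1 else 2))
    (fun b : ℕ => (MvPolynomial.X b : MvPolynomial ℕ ℂ))

theorem net_eq (e : Fin (7 + 1) → ℕ) (W : Fin 7 → ℕ → ℕ → ℂ) :
    net e W = step 2 (e 6) (W 6) (step 2 (e 5) (W 5) (step 2 (e 4) (W 4) (step 2 (e 3) (W 3)
      (step 2 (e 2) (W 2) (step 2 (e 1) (W 1) (step 1 (e 0) (W 0) (fun b => X b))))))) := by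
  rfl

/-- The network fills its ambient space. -/
def Fills (e : Fin (7 + 1) → ℕ) : Prop :=
  ∀ P : MvPolynomial (ℕ × (ℕ →₀ ℕ)) ℂ,
    (∀ W : Fin 7 → ℕ → ℕ → ℂ,
      MvPolynomial.eval (fun p : ℕ × (ℕ →₀ ℕ) => MvPolynomial.coeff p.2 (net e W p.1)) P = 0) →
    ∀ c : ℕ × (ℕ →₀ ℕ) → ℂ,
      (∀ p : ℕ × (ℕ →₀ ℕ), c p ≠ 0 →
        p.1 < e (Fin.last 7) ∧ (∑ b ∈ p.2.support, p.2 b) = 2 ^ (7 - 1) ∧
          ∀ b ∈ p.2.support, b < e 0) →
      MvPolynomial.eval c P = 0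

/-- Exponent of the monomial `X_0 ^ k X_1 ^ (64 - k)`. -/
noncomputable def mon (k : Fin 65) : ℕ →₀ ℕ :=
  Finsupp.single 0 (k : ℕ) + Finsupp.single 1 (64 - (k : ℕ))

theorem mon_zero (k : Fin 65) : mon k 0 = k := by
  simp [mon]

theorem mon_injective : Function.Injective mon := by
  intro j k h
  have := congrArg (fun f : ℕ →₀ ℕ => f 0) h
  simp only [mon_zero] at this
  exact Fin.ext this

end Pool.Agent.TH203.Uni
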