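import Pool.Agent.TH203.Uni.Cert

set_option autoImplicit false

/-! The tangent polynomials span: from the certificate to linear algebra over `ℂ`. -/

namespace Pool.Agent.TH203.Uni

open Polynomial

/-- The polynomial with given coefficients. -/
noncomputable def toP : List ℕ → ℂ[X]
  | [] => 0
  | a :: l => C (a : ℂ) + X * toP l

theorem toP_addL (a b : List ℕ) : toP (addL a b) = toP a + toP b := by
  induction a generalizing b with
  | nil => simp [addL, toP]
  | cons x a ih =>
    cases b with
    | nil => simp [addL, toP]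
    | cons y b =>
      simp only [addL, toP, ih, Nat.cast_add, C_add]
      ring

theorem toP_map (x : ℕ) (b : List ℕ) : toP (b.map (fun z => x * z)) = C (x : ℂ) * toP b := by
  induction b with
  | nil => simp [toP]
  | cons y b ih =>
    simp only [List.map_cons, toP, ih, Nat.cast_mul, C_mul]
    ring

theorem toP_mulL (a b : List ℕ) : toP (mulL a b) = toP a * toP b := by
  induction a with
  | nil => simp [mulL, toP]
  | cons x a ih =>
    simp only [mulL, toP_addL, toP_map, toP, ih, Nat.cast_zero, C_0]
    ring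

theorem toP_sh (n : ℕ) : toP (sh n) = X ^ n := by
  induction n with
  | zero => simp [sh, toP]
  | succ n ih =>
    simp only [sh, toP, ih, Nat.cast_zero, C_0, pow_succ]
    ring

theorem toP_sqL (a : List ℕ) : toP (sqL a) = toP a ^ 2 := by
  rw [sqL, toP_mulL]; ring

theorem toP_pw7 (a : List ℕ) : toP (pw7 a) = toP a ^ 7 := by
  rw [pw7, toP_mulL, toP_mulL, toP_sqL, toP_sqL]; ring

theorem coeff_toP (l : List ℕ) (k : ℕ) : (toP l).coeff k = (l.getD k 0 : ℕ) := by
  induction l generalizing k with
  | nil => simp [toP]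
  | cons a l ih =>
    cases k with
    | zero => simp [toP]
    | succ k =>
      simp only [toP, coeff_add, coeff_C_succ, zero_add, coeff_X_mul, ih]
      simp

/-- The functional with coefficients `v`. -/
noncomputable def lam (v : Fin 65 → ℂ) (p : ℂ[X]) : ℂ := ∑ k : Fin 65, v k * p.coeff k

theorem dot_eq (r c : List ℕ) (n : ℕ) (hn : c.length ≤ n) :
    dot r c = ∑ k ∈ Finset.range n, r.getD k 0 * c.getD k 0 := by
  induction r generalizing c n with
  | nil => cases c <;> simp [dot]
  | cons x r ih =>
    cases c with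
    | nil => simp [dot]
    | cons y c =>
      obtain ⟨n, rfl⟩ : ∃ m, n = m + 1 := ⟨n - 1, by simp at hn; omega⟩
      rw [Finset.sum_range_succ']
      simp only [dot, List.getD_cons_succ, List.getD_cons_zero]
      rw [ih c n (by simpa using hn)]
      ring

theorem chk_spec (i : ℕ) (r : List ℕ) (cs : List (List ℕ)) (j : ℕ) (h : chk i r cs j = true)
    (k : ℕ) (hk : k < cs.length) :
    dot r (cs.getD k []) % 97 = if i = j + k then 1 else 0 := by
  induction cs generalizing j k with
  | nil => simp at hk
  | cons c cs ih =>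
    simp only [chk, Bool.and_eq_true] at h
    cases k with
    | zero =>
      have := h.1
      simp only [beq_iff_eq] at this
      simpa using this
    | succ k =>
      have := ih (j + 1) h.2 k (by simpa using hk)
      rw [List.getD_cons_succ, this]
      congr 1
      rw [eq_iff_iff]
      constructor <;> intro h <;> omega

theorem chkAll_spec (rs : List (List ℕ)) (i : ℕ) (h : chkAll rs i = true)
    (k : ℕ) (hk : k < rs.length) : chk (i + k) (rs.getD k []) cols 0 = true := by
  induction rs generalizing i k with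
  | nil => simp at hk
  | cons r rs ih =>
    simp only [chkAll, Bool.and_eq_true] at h
    cases k with
    | zero => simpa using h.1
    | succ k =>
      have := ih (i + 1) h.2 k (by simpa using hk)
      rw [List.getD_cons_succ]
      rw [← this]
      congr 1
      omega

/-- The matrix. -/
def M (i k : Fin 65) : ℤ := (((rows.getD i []).getD k 0 : ℕ) : ℤ)

/-- Its inverse modulo 97. -/
def N (k j : Fin 65) : ℤ := (((cols.getD j []).getD k 0 : ℕ) : ℤ)

theorem M_mul_N (i j : Fin 65) :
    ((∑ k, M i k * N k j : ℤ) : ZMod 97) = if i = j then 1 else 0 := by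
  have h1 := chkAll_spec rows 0 chkAll_ok i (by rw [rows_length]; exact i.2)
  have h2 := chk_spec _ _ _ _ h1 j (by rw [cols_length]; exact j.2)
  have hl : (cols.getD j []).length = 65 := by
    apply cols_lengths
    have hj : (j : ℕ) < cols.length := by rw [cols_length]; exact j.2
    rw [List.getD_eq_getElem _ _ hj]
    exact List.getElem_mem hj
  rw [dot_eq _ _ 65 hl.le] at h2
  rw [zero_add, zero_add, ← Fin.sum_univ_eq_sum_range
    (fun k => (rows.getD i []).getD k 0 * (cols.getD j []).getD k 0) 65] at h2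
  have h3 : (∑ k, M i k * N k j : ℤ) =
      ((∑ k : Fin 65, (rows.getD i []).getD k 0 * (cols.getD j []).getD k 0 : ℕ) : ℤ) := by
    push_cast
    rfl
  rw [h3, Int.cast_natCast, ← ZMod.natCast_mod, h2]
  by_cases h : i = j
  · simp [h]
  · rw [if_neg h, if_neg (fun h' => h (Fin.ext h'))]
    simp

theorem det_ne : (Matrix.of M).det ≠ 0 := by
  intro h0
  have h1 : ((Matrix.of M) * (Matrix.of N)).map (Int.castRingHom (ZMod 97)) = 1 := by
    ext i j
    rw [Matrix.map_apply, Matrix.mul_apply, Matrix.one_apply]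
    exact M_mul_N i j
  have h2 := congrArg Matrix.det h1
  rw [Matrix.det_one] at h2
  have h3 : ((Matrix.of M * Matrix.of N).map (Int.castRingHom (ZMod 97))).det =
      (Int.castRingHom (ZMod 97)) (Matrix.of M * Matrix.of N).det := by
    rw [RingHom.map_det]; rfl
  rw [h3, Matrix.det_mul, h0, zero_mul, map_zero] at h2
  exact absurd h2 (by decide)

theorem eq_zero_of_rows (v : Fin 65 → ℂ) (h : ∀ r ∈ rows, lam v (toP r) = 0) : v = 0 := by
  have hdet : ((Matrix.of M).map (Int.castRingHom ℂ)).det ≠ 0 := by
    have : ((Matrix.of M).map (Int.castRingHom ℂ)).det = (Int.castRingHom ℂ) (Matrix.of M).det := by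
      rw [RingHom.map_det]; rfl
    rw [this]
    intro h0
    apply det_ne
    have : ((Matrix.of M).det : ℂ) = 0 := h0
    exact_mod_cast this
  apply Matrix.eq_zero_of_mulVec_eq_zero hdet
  funext i
  have hi : (i : ℕ) < rows.length := by rw [rows_length]; exact i.2
  have h1 := h (rows.getD i []) (by
    rw [List.getD_eq_getElem _ _ hi]
    exact List.getElem_mem hi)
  rw [Pi.zero_apply, ← h1, Matrix.mulVec, lam]
  simp only [dotProduct, Matrix.map_apply, Matrix.of_apply, M, coeff_toP]
  refine Finset.sum_congr rfl fun k _ => ?_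
  simp [mul_comm]

/-- The functional `v` vanishes if it kills the tangent polynomials. -/
theorem lin (v : Fin 65 → ℂ)
    (h1 : ∀ t : ℕ × ℕ × ℕ × ℕ, t.1 < 4 → t.2.1 < 4 → t.2.2.1 < 4 → t.2.2.2 < 4 →
      lam v (toP (bas t.1) ^ 2 * toP (bas t.2.1) ^ 2 * (toP (bas t.2.2.1) ^ 2 *
        toP (bas t.2.2.2) ^ 2)) = 0)
    (h2 : ∀ j < 4, ∀ l < 9, lam v (toP (bas j) ^ 7 * X ^ l) = 0) : v = 0 := by
  apply eq_zero_of_rows
  have h3 : ∀ j < 4, ∀ r ∈ (List.range 9).map fun l => mulL (pw7 (bas j)) (sh l),
      lam v (toP r) = 0 := by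
    intro j hj r hr
    obtain ⟨l, hl, rfl⟩ := List.mem_map.1 hr
    rw [toP_mulL, toP_pw7, toP_sh]
    exact h2 j hj l (List.mem_range.1 hl)
  intro r hr
  simp only [rows, List.mem_append] at hr
  rcases hr with (((hr | hr) | hr) | hr) | hr
  · exact h3 0 (by norm_num) r hr
  · exact h3 1 (by norm_num) r hr
  · exact h3 2 (by norm_num) r hr
  · exact h3 3 (by norm_num) r hr
  · obtain ⟨t, ht, rfl⟩ := List.mem_map.1 hr
    rw [prL, toP_mulL, toP_mulL, toP_mulL, toP_sqL, toP_sqL, toP_sqL, toP_sqL]
    have h4 : ∀ t ∈ quads, t.1 < 4 ∧ t.2.1 < 4 ∧ t.2.2.1 < 4 ∧ t.2.2.2 < 4 := by decide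
    obtain ⟨a, b, c, d⟩ := h4 t ht
    exact h1 t a b c d

end Pool.Agent.TH203.Uni
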