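import Pool.Agent.TH203.Uni.Defs

set_option autoImplicit false

/-! Non-filling criterion and the submodules of binary forms. -/

namespace Pool.Agent.TH203.Uni

open MvPolynomial

/-- More polynomials than variables satisfy a relation. -/
theorem exists_rel {ι : Type} [Fintype ι] (h : Fintype.card ι < 65)
    (φ : Fin 65 → MvPolynomial ι ℂ) :
    ∃ P : MvPolynomial (Fin 65) ℂ, P ≠ 0 ∧ aeval φ P = 0 := by
  by_contra hcon
  push Not at hcon
  have hind : AlgebraicIndependent ℂ φ := by
    rw [AlgebraicIndependent, injective_iff_map_eq_zero]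
    intro P hP
    by_contra h0
    exact hcon P h0 hP
  have h1 := hind.cardinalMk_le_trdeg
  rw [MvPolynomial.trdeg_of_isDomain] at h1
  simp only [Cardinal.mk_fintype, Fintype.card_fin, Cardinal.lift_natCast, Nat.cast_le] at h1
  omega

/-- If the 65 coefficients of the output satisfy a polynomial relation, the network is not
filling. -/
theorem not_fills (e : Fin (7 + 1) → ℕ) (he0 : e 0 = 2) (he7 : e 7 = 1)
    (P : MvPolynomial (Fin 65) ℂ) (hP0 : P ≠ 0)
    (hP : ∀ W, eval (fun k => coeff (mon k) (net e W 0)) P = 0) : ¬ Fills e := by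
  intro hF
  apply hP0
  apply MvPolynomial.funext
  intro x
  rw [map_zero]
  have h1 := hF (rename (fun k => ((0 : ℕ), mon k)) P) (by
    intro W
    rw [eval_rename]
    exact hP W) (fun p => ∑ k : Fin 65, if p = (0, mon k) then x k else 0) (by
    intro p hp
    obtain ⟨k, -, hk⟩ := Finset.exists_ne_zero_of_sum_ne_zero hp
    have hpk : p = (0, mon k) := by
      by_contra hne
      rw [if_neg hne] at hk
      exact hk rfl
    subst hpk
    have he7' : e (Fin.last 7) = 1 := he7
    refine ⟨by rw [he7']; exact Nat.one_pos, ?_, ?_⟩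
    · have hs : (mon k).support ⊆ {0, 1} := by
        intro b hb
        by_contra hb'
        simp only [Finset.mem_insert, Finset.mem_singleton, not_or] at hb'
        rw [Finsupp.mem_support_iff] at hb
        apply hb
        simp only [mon, Finsupp.add_apply]
        rw [Finsupp.single_eq_of_ne (by omega), Finsupp.single_eq_of_ne (by omega), add_zero]
      rw [Finset.sum_subset hs (by
        intro b _ hb
        simpa using hb)]
      rw [Finset.sum_pair (by norm_num)]
      simp only [mon, Finsupp.add_apply]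
      have := k.2
      simp
      omega
    · intro b hb
      rw [he0]
      rw [Finsupp.mem_support_iff] at hb
      by_contra hb'
      apply hb
      simp only [mon, Finsupp.add_apply]
      rw [Finsupp.single_eq_of_ne (by omega), Finsupp.single_eq_of_ne (by omega), add_zero])
  rw [eval_rename] at h1
  rw [← h1]
  congr 1
  congr 1
  funext k
  simp only [Function.comp]
  rw [Finset.sum_eq_single k]
  · rw [if_pos rfl]
  · intro b _ hb
    rw [if_neg]
    intro h
    apply hb
    exact (mon_injective (Prod.ext_iff.1 h).2).symm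
  · intro h
    exact absurd (Finset.mem_univ _) h

/-- Binary forms of degree `n`. -/
noncomputable def S (n : ℕ) : Submodule ℂ (MvPolynomial ℕ ℂ) :=
  Submodule.span ℂ (Set.range fun l : Fin (n + 1) => (X 0 ^ (l : ℕ) * X 1 ^ (n - (l : ℕ))))

theorem mem_S {n : ℕ} {i j : ℕ} (h : i + j = n) :
    (X 0 ^ i * X 1 ^ j : MvPolynomial ℕ ℂ) ∈ S n := by
  refine Submodule.subset_span ⟨⟨i, by omega⟩, ?_⟩
  have : n - i = j := by omega
  simp [this]

theorem mul_mem_S {m n : ℕ} {x y : MvPolynomial ℕ ℂ} (hx : x ∈ S m) (hy : y ∈ S n) :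
    x * y ∈ S (m + n) := by
  have h : S m * S n ≤ S (m + n) := by
    rw [S, S, Submodule.span_mul_span, Submodule.span_le]
    rintro _ ⟨_, ⟨i, rfl⟩, _, ⟨j, rfl⟩, rfl⟩
    have : (X 0 ^ (i : ℕ) * X 1 ^ (m - (i : ℕ)) * (X 0 ^ (j : ℕ) * X 1 ^ (n - (j : ℕ)))
        : MvPolynomial ℕ ℂ) = X 0 ^ ((i : ℕ) + j) * X 1 ^ ((m - (i : ℕ)) + (n - (j : ℕ))) := by
      rw [pow_add, pow_add]; ring
    simp only [SetLike.mem_coe]
    rw [this]
    apply mem_S
    have := i.2
    have := j.2
    omega
  exact h (Submodule.mul_mem_mul hx hy)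

theorem sq_mem_S {n : ℕ} {x : MvPolynomial ℕ ℂ} (hx : x ∈ S n) : x ^ 2 ∈ S (n + n) := by
  rw [sq]; exact mul_mem_S hx hx

theorem step_mem {s n : ℕ} {A : ℕ → ℕ → ℂ} {h : ℕ → MvPolynomial ℕ ℂ}
    (V : Submodule ℂ (MvPolynomial ℕ ℂ)) (hh : ∀ b < n, h b ^ s ∈ V) (a : ℕ) :
    step s n A h a ∈ V := by
  unfold step
  refine Submodule.sum_mem _ fun b hb => ?_
  rw [← smul_eq_C_mul]
  exact V.smul_mem _ (hh b (Finset.mem_range.1 hb))

theorem layer1 {n : ℕ} (hn : n = 2) (A : ℕ → ℕ → ℂ) (a : ℕ) :
    step 1 n A (fun b => X b) a ∈ S 1 := by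
  subst hn
  refine step_mem (S 1) ?_ a
  intro b hb
  rw [pow_one]
  interval_cases b
  · have := mem_S (i := 1) (j := 0) (n := 1) rfl
    simpa using this
  · have := mem_S (i := 0) (j := 1) (n := 1) rfl
    simpa using this

theorem layer_S {n m : ℕ} (A : ℕ → ℕ → ℂ) (h : ℕ → MvPolynomial ℕ ℂ) (hh : ∀ b, h b ∈ S m)
    (a : ℕ) : step 2 n A h a ∈ S (m + m) :=
  step_mem _ (fun b _ => sq_mem_S (hh b)) a

end Pool.Agent.TH203.Uni
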