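import Pool.Agent.TH203.Uni.Gen

set_option autoImplicit false

/-! All polynomials in four squares of binary octics are outputs of the wide network. -/

namespace Pool.Agent.TH203.Uni

open MvPolynomial

/-- Span of the powers of the first `n` entries. -/
noncomputable def U (s n : ℕ) (h : ℕ → MvPolynomial ℕ ℂ) : Submodule ℂ (MvPolynomial ℕ ℂ) :=
  Submodule.span ℂ (Set.range fun b : Fin n => h b ^ s)

theorem step_surj (s n : ℕ) (h g : ℕ → MvPolynomial ℕ ℂ) (hg : ∀ a, g a ∈ U s n h) :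
    ∃ A, step s n A h = g := by
  choose c hc using fun a => (Submodule.mem_span_range_iff_exists_fun ℂ).1 (hg a)
  refine ⟨fun a b => if hb : b < n then c a ⟨b, hb⟩ else 0, ?_⟩
  funext a
  rw [← hc a, step, ← Fin.sum_univ_eq_sum_range
    (fun b => C (if hb : b < n then c a ⟨b, hb⟩ else 0) * h b ^ s) n]
  refine Finset.sum_congr rfl fun b _ => ?_
  rw [dif_pos b.2, smul_eq_C_mul]

theorem mem_U {s n : ℕ} (h : ℕ → MvPolynomial ℕ ℂ) {b : ℕ} (hb : b < n) : h b ^ s ∈ U s n h :=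
  Submodule.subset_span ⟨⟨b, hb⟩, rfl⟩

/-- All sums of two entries. -/
noncomputable def prs (n : ℕ) (m : ℕ → MvPolynomial ℕ ℂ) (a : ℕ) : MvPolynomial ℕ ℂ :=
  m (a / n) + m (a % n)

theorem prs_mem (n : ℕ) (m : ℕ → MvPolynomial ℕ ℂ) (V : Submodule ℂ (MvPolynomial ℕ ℂ))
    (hm : ∀ i, m i ∈ V) (a : ℕ) : prs n m a ∈ V :=
  V.add_mem (hm _) (hm _)

theorem prs_eq (n : ℕ) (m : ℕ → MvPolynomial ℕ ℂ) {i j : ℕ} (hj : j < n) :
    prs n m (i * n + j) = m i + m j := by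
  have h1 : (i * n + j) / n = i := by
    rw [Nat.mul_comm, Nat.mul_add_div (by omega), Nat.div_eq_of_lt hj, add_zero]
  have h2 : (i * n + j) % n = j := by
    rw [Nat.mul_comm, Nat.mul_add_mod, Nat.mod_eq_of_lt hj]
  rw [prs, h1, h2]

theorem prs_sq_mem (n : ℕ) (m : ℕ → MvPolynomial ℕ ℂ) {i j : ℕ} (hi : i < n) (hj : j < n) :
    (m i + m j) ^ 2 ∈ U 2 (n * n) (prs n m) := by
  rw [← prs_eq n m hj]
  apply mem_U
  calc i * n + j < i * n + n := by omega
    _ = (i + 1) * n := by ring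
    _ ≤ n * n := Nat.mul_le_mul_right n hi

theorem prod_mem (n : ℕ) (m : ℕ → MvPolynomial ℕ ℂ) {i j : ℕ} (hi : i < n) (hj : j < n) :
    m i * m j ∈ U 2 (n * n) (prs n m) := by
  have h1 := prs_sq_mem n m hi hj
  have h2 := prs_sq_mem n m hi hi
  have h3 := prs_sq_mem n m hj hj
  have e : m i * m j = (1 / 2 : ℂ) • (m i + m j) ^ 2 + ((-1 / 8 : ℂ) • (m i + m i) ^ 2 +
      (-1 / 8 : ℂ) • (m j + m j) ^ 2) := by
    simp only [smul_eq_C_mul]
    have a1 : (C (1 / 2) : MvPolynomial ℕ ℂ) * 2 = 1 := by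
      rw [← map_ofNat (C : ℂ →+* MvPolynomial ℕ ℂ) 2, ← C_mul]; norm_num
    have a2 : (C (-1 / 8) : MvPolynomial ℕ ℂ) * 8 = -1 := by
      rw [← map_ofNat (C : ℂ →+* MvPolynomial ℕ ℂ) 8, ← C_mul]; norm_num
    have a3 : (C (-1 / 8) : MvPolynomial ℕ ℂ) * 4 = - C (1 / 2) := by
      rw [← map_ofNat (C : ℂ →+* MvPolynomial ℕ ℂ) 4, ← C_mul, ← C_neg]; norm_num
    linear_combination (-(m i * m j)) * a1 + (- (m i ^ 2) - m j ^ 2) * a3
  rw [e]
  exact Submodule.add_mem _ (Submodule.smul_mem _ _ h1)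
    (Submodule.add_mem _ (Submodule.smul_mem _ _ h2) (Submodule.smul_mem _ _ h3))

/-- The monomials of degree `n`. -/
noncomputable def mS (n i : ℕ) : MvPolynomial ℕ ℂ := if i ≤ n then X 0 ^ i * X 1 ^ (n - i) else 0

theorem mS_mem (n i : ℕ) : mS n i ∈ S n := by
  unfold mS
  split_ifs with h
  · exact mem_S (by omega)
  · exact Submodule.zero_mem _

theorem S_le (n : ℕ) : S (n + n) ≤ U 2 ((n + 1) * (n + 1)) (prs (n + 1) (mS n)) := by
  rw [S, Submodule.span_le]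
  rintro _ ⟨l, rfl⟩
  have hl := l.2
  obtain ⟨i, j, hi, hj, hij⟩ : ∃ i j, i ≤ n ∧ j ≤ n ∧ i + j = (l : ℕ) := by
    by_cases h : (l : ℕ) ≤ n
    · exact ⟨l, 0, h, Nat.zero_le _, rfl⟩
    · exact ⟨n, l - n, le_rfl, by omega, by omega⟩
  have h1 := prod_mem (n + 1) (mS n) (i := i) (j := j) (by omega) (by omega)
  have h2 : mS n i * mS n j = X 0 ^ (l : ℕ) * X 1 ^ (n + n - (l : ℕ)) := by
    rw [mS, mS, if_pos hi, if_pos hj]
    have : n + n - (l : ℕ) = (n - i) + (n - j) := by omega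
    rw [this, ← hij, pow_add, pow_add]
    ring
  rw [h2] at h1
  exact h1

/-- The widths. -/
def dstar : Fin (7 + 1) → ℕ := ![2, 4, 9, 25, 4, 16, 256, 1]

theorem reach (Q : Fin 4 → MvPolynomial ℕ ℂ) (hQ : ∀ i, Q i ∈ S 8) (H : MvPolynomial ℕ ℂ)
    (hH : H ∈ Submodule.span ℂ (Set.range fun t : Fin 4 × Fin 4 × Fin 4 × Fin 4 =>
      Q t.1 ^ 2 * Q t.2.1 ^ 2 * (Q t.2.2.1 ^ 2 * Q t.2.2.2 ^ 2))) :
    ∃ W, ∀ a, net dstar W a = if a = 0 then H else 0 := by
  obtain ⟨W0, h0⟩ := step_surj 1 2 (fun b => X b) (prs 2 (mS 1)) (by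
    intro a
    refine prs_mem _ _ _ (fun i => ?_) a
    unfold mS
    split_ifs with h
    · interval_cases i
      · have := mem_U (s := 1) (n := 2) (fun b => (X b : MvPolynomial ℕ ℂ)) (b := 1) (by norm_num)
        simpa using this
      · have := mem_U (s := 1) (n := 2) (fun b => (X b : MvPolynomial ℕ ℂ)) (b := 0) (by norm_num)
        simpa using this
    · exact Submodule.zero_mem _)
  obtain ⟨W1, h1⟩ := step_surj 2 4 (prs 2 (mS 1)) (prs 3 (mS 2)) (by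
    intro a
    exact prs_mem _ _ _ (fun i => S_le 1 (mS_mem 2 i)) a)
  obtain ⟨W2, h2⟩ := step_surj 2 9 (prs 3 (mS 2)) (prs 5 (mS 4)) (by
    intro a
    exact prs_mem _ _ _ (fun i => S_le 2 (mS_mem 4 i)) a)
  set g4 : ℕ → MvPolynomial ℕ ℂ := fun a => if h : a < 4 then Q ⟨a, h⟩ else 0 with hg4
  obtain ⟨W3, h3⟩ := step_surj 2 25 (prs 5 (mS 4)) g4 (by
    intro a
    simp only [hg4]
    split_ifs with h
    · exact S_le 4 (hQ _)
    · exact Submodule.zero_mem _)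
  set m5 : ℕ → MvPolynomial ℕ ℂ := fun a => g4 a ^ 2 with hm5
  obtain ⟨W4, h4⟩ := step_surj 2 4 g4 (prs 4 m5) (by
    intro a
    refine prs_mem _ _ _ (fun i => ?_) a
    by_cases h : i < 4
    · exact mem_U g4 h
    · simp only [hm5, hg4]
      rw [dif_neg h]
      simp)
  set m6 : ℕ → MvPolynomial ℕ ℂ := fun a => if a < 16 then m5 (a / 4) * m5 (a % 4) else 0 with hm6
  obtain ⟨W5, h5⟩ := step_surj 2 16 (prs 4 m5) (prs 16 m6) (by
    intro a
    refine prs_mem _ _ _ (fun i => ?_) a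
    simp only [hm6]
    split_ifs with h
    · exact prod_mem 4 m5 (by omega) (by omega)
    · exact Submodule.zero_mem _)
  obtain ⟨W6, h6⟩ := step_surj 2 256 (prs 16 m6) (fun a => if a = 0 then H else 0) (by
    intro a
    by_cases h : a = 0
    · rw [if_pos h]
      have hle : Submodule.span ℂ (Set.range fun t : Fin 4 × Fin 4 × Fin 4 × Fin 4 =>
          Q t.1 ^ 2 * Q t.2.1 ^ 2 * (Q t.2.2.1 ^ 2 * Q t.2.2.2 ^ 2)) ≤ U 2 256 (prs 16 m6) := by
        rw [Submodule.span_le]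
        rintro _ ⟨⟨e, f, g, k⟩, rfl⟩
        have h1 := prod_mem 16 m6 (i := e * 4 + f) (j := g * 4 + k) (by omega) (by omega)
        have e1 : ∀ e f : Fin 4, m6 ((e : ℕ) * 4 + f) = Q e ^ 2 * Q f ^ 2 := by
          intro e f
          have a1 : ((e : ℕ) * 4 + f) / 4 = e := by omega
          have a2 : ((e : ℕ) * 4 + f) % 4 = f := by omega
          simp only [hm6, a1, a2, hm5, hg4]
          rw [if_pos (by omega), dif_pos e.2, dif_pos f.2]
        rw [e1, e1] at h1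
        exact h1
      exact hle hH
    · rw [if_neg h]
      exact Submodule.zero_mem _)
  refine ⟨![W0, W1, W2, W3, W4, W5, W6], ?_⟩
  intro a
  rw [net_eq]
  have e0 : step 2 (dstar 6) W6 (step 2 (dstar 5) W5 (step 2 (dstar 4) W4 (step 2 (dstar 3) W3
      (step 2 (dstar 2) W2 (step 2 (dstar 1) W1 (step 1 (dstar 0) W0 (fun b => X b))))))) a =
      if a = 0 then H else 0 := by
    change step 2 256 W6 (step 2 16 W5 (step 2 4 W4 (step 2 25 W3
      (step 2 9 W2 (step 2 4 W1 (step 1 2 W0 (fun b => X b))))))) a = _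
    rw [h0, h1, h2, h3, h4, h5, h6]
  exact e0

end Pool.Agent.TH203.Uni
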